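import Pool.Agent.N181.P8.Fac

/-!
The Tate conjecture at 3 and the points modulo 3 for pullbacks with exactly one point above each point
of bad reduction.
-/

set_option autoImplicit false
set_option linter.all false

open Polynomial IsDedekindDomain WeierstrassCurve WeierstrassCurve.Affine
open scoped Classical

namespace Pool.Agent.N181.P8

open Pool.Agent.N181.T3 Pool.Agent.N181.P3
open Pool.Agent.X243.Gen (pb pb_sum pb_mul pb_C pb_one pb_pow pb_lin pb_map pb_frac pb_ne exists_psi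
  natDegree_pb root_of_prime form_cop)
open Pool.Agent.TH115.GD (Pt act incl rs ak act_zero act_some act_inj act_act IsCoc LocTriv
  fixed_point exists_restrict rs_act_incl Preserves exists_conj IsTower LocallyTrivial Sep Comp
  wFin lt_subT cob_isCoc sepKΩ preserves)

/-- The polynomial `f` over `L` is a constant times a power of a separable polynomial which is irreducible
over the extensions of `L` of degree at most three, with an exponent not divisible by three. -/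
def PwS {L : Type} [Field L] (L' : Type) [Field L'] [Algebra L L'] (f : L[X]) : Prop :=
  ∃ (ρ : L[X]) (e : ℕ) (u : L), u ≠ 0 ∧ ¬ 3 ∣ e ∧ ρ.Separable ∧ Stays L' ρ ∧ f = C u * ρ ^ e

theorem PwS.pw {L : Type} [Field L] {L' : Type} [Field L'] [Algebra L L'] {f : L[X]}
    (h : PwS L' f) : Pw f := by
  obtain ⟨ρ, e, u, hu, he, -, h1, h2⟩ := h
  exact ⟨ρ, e, u, hu, he, irr_of_stays h1, h2⟩

section

variable {k L K₀ K : Type} [Field k] [Field L] [Field K₀] [Algebra k[X] K₀] [IsFractionRing k[X] K₀]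
  (φ : k →+* L) {q r : L[X]} {m n : ℕ} {a b : k[X]}

/-- The conditions on the fibres. -/
structure Fib8 (L' : Type) [Field L'] [Algebra L L'] (q r : L[X]) (m n : ℕ) (a b : k[X]) : Prop where
  co : IsCoprime q r
  qp : 0 < q.natDegree
  qn : q.natDegree ≤ n
  rn : r.natDegree ≤ n
  fb : ∀ ξ, (b * (a ^ 3 - 27 * b)).IsRoot ξ → PwS L' (q - C (φ ξ) * r) ∧
    (q - C (φ ξ) * r).natDegree = n
  rb : r = 1 ∨ (b.natDegree = 3 * m ∧ (a ^ 3 - 27 * b).natDegree = 3 * m) ∨
    (PwS L' r ∧ r.natDegree = n)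

theorem Fib8.r0 {φ : k →+* L} {L' : Type} [Field L'] [Algebra L L'] (h : Fib8 φ L' q r m n a b) :
    r ≠ 0 := by
  rintro rfl
  have := h.co
  rw [isCoprime_zero_right] at this
  have := natDegree_eq_zero_of_isUnit this
  have := h.qp
  omega

theorem Fib8.npos {φ : k →+* L} {L' : Type} [Field L'] [Algebra L L'] (h : Fib8 φ L' q r m n a b) :
    0 < n := h.qp.trans_le h.qn

theorem not_cst_cube_pull8 (hco : IsCoprime q r) (hq : 0 < q.natDegree) (hr0 : r ≠ 0) {M : ℕ}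
    {g : k[X]} (hg : g ≠ 0) (hs : g.Splits)
    (hirr : ∀ ξ, g.IsRoot ξ → Pw (q - C (φ ξ) * r)) {ξ : k}
    (hξ : ¬ 3 ∣ g.rootMultiplicity ξ) (u : L) (w : L[X]) : hb q r M (g.map φ) ≠ C u * w ^ 3 := by
  obtain ⟨g', hg', hnd⟩ := exists_eq_pow_rootMultiplicity_mul_and_not_dvd g hg ξ
  have hroot : g.IsRoot ξ := by
    by_contra h
    apply hξ
    rw [rootMultiplicity_eq_zero h]
    exact dvd_zero 3
  have hg'0 : g' ≠ 0 := by
    rintro rfl
    rw [mul_zero] at hg'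
    exact hg hg'
  obtain ⟨ρ, i, v, hv, hi, hρ, i1⟩ := hirr ξ hroot
  have e : hb q r M (g.map φ) = ρ ^ (i * g.rootMultiplicity ξ) *
      (C v ^ (g.rootMultiplicity ξ) * (r ^ (M - g.natDegree) * pb q r (g'.map φ))) := by
    rw [hb, natDegree_map]
    conv_lhs => rw [hg']
    rw [Polynomial.map_mul, Polynomial.map_pow, Polynomial.map_sub, map_X, map_C, pb_mul,
      pb_pow, pb_lin, ← hg', i1, mul_pow, ← pow_mul]
    ring
  have hρd : ρ ∣ q - C (φ ξ) * r := by
    rw [i1]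
    have h0 : i ≠ 0 := by
      rintro rfl
      exact hi (dvd_zero 3)
    exact (dvd_pow_self ρ h0).mul_left _
  have h3 : ¬ 3 ∣ i * g.rootMultiplicity ξ := by
    rw [Nat.Prime.dvd_mul Nat.prime_three]
    push Not
    exact ⟨hi, hξ⟩
  rw [e]
  refine not_cst_cube' hρ h3 ?_ u w
  intro h4
  have hvu : IsUnit ((C v : L[X]) ^ (g.rootMultiplicity ξ)) :=
    (isUnit_C.2 (isUnit_iff_ne_zero.2 hv)).pow _
  rcases hρ.prime.dvd_or_dvd (hvu.dvd_mul_left.1 h4) with h5 | h5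
  · have h6 := hρ.prime.dvd_of_dvd_pow h5
    have h7 : ρ ∣ q := by
      have := dvd_add hρd (h6.mul_left (C (φ ξ)))
      rwa [sub_add_cancel] at this
    exact hρ.not_isUnit (hco.isUnit_of_dvd' h7 h6)
  · obtain ⟨ξ', hξ', h6⟩ := root_of_prime φ hg'0 (hs.of_dvd hg ⟨_, by rw [mul_comm]; exact hg'⟩)
      hρ.prime h5
    have hne : ξ ≠ ξ' := by
      rintro rfl
      exact hnd (dvd_iff_isRoot.2 hξ')
    exact hρ.not_isUnit (form_cop φ hco hne hρd h6)

theorem hyp_pull8 (hB : Base3 K₀ m a b) {L' : Type} [Field L'] [Algebra L L']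
    (hF : Fib8 φ L' q r m n a b) :
    Hyp3 L' (hb q r m (a.map φ)) (hb q r (3 * m) (b.map φ)) (n * m) := by
  have hco := hF.co
  have hq := hF.qp
  have hr0 := hF.r0
  have hpb : ∀ g : k[X], g ≠ 0 → pb q r (g.map φ) ≠ 0 := fun g hg =>
    pb_ne hco hq ((Polynomial.map_ne_zero_iff φ.injective).2 hg)
  have hb0 : ∀ (M : ℕ) (g : k[X]), g ≠ 0 → hb q r M (g.map φ) ≠ 0 := fun M g hg =>
    mul_ne_zero (pow_ne_zero _ hr0) (hpb g hg)
  have hdisc := disc_pull φ hB hr0 hco hq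
  have rb : ∀ ξ, b.IsRoot ξ → PwS L' (q - C (φ ξ) * r) ∧
      (q - C (φ ξ) * r).natDegree = n := by
    intro ξ h
    exact hF.fb ξ (by rw [IsRoot.def, eval_mul, IsRoot.def.1 h, zero_mul])
  have rd : ∀ ξ, (a ^ 3 - 27 * b).IsRoot ξ → PwS L' (q - C (φ ξ) * r) ∧
      (q - C (φ ξ) * r).natDegree = n := by
    intro ξ h
    exact hF.fb ξ (by rw [IsRoot.def, eval_mul, IsRoot.def.1 h, mul_zero])
  -- the irreducible factors
  have key : ∀ π : L[X], Irreducible π →
      π ∣ hb q r (3 * m) (b.map φ) * (hb q r m (a.map φ) ^ 3 - 27 * hb q r (3 * m) (b.map φ)) →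
      ∃ f : L[X], Associated π f ∧ f.Separable ∧ Stays L' f := by
    intro π hπ hd
    rw [hdisc] at hd
    have hform : ∀ f : L[X], PwS L' f → π ∣ f →
        ∃ f : L[X], Associated π f ∧ f.Separable ∧ Stays L' f := by
      rintro f ⟨ρ, e, u, hu, he, h1, h2, rfl⟩ h3
      have h4 : π ∣ ρ ^ e := (isUnit_C.2 (isUnit_iff_ne_zero.2 hu)).dvd_mul_left.1 h3
      exact ⟨ρ, hπ.associated_of_dvd (irr_of_stays h2) (hπ.prime.dvd_of_dvd_pow h4), h1, h2⟩
    have hone : ∀ g : k[X], g ≠ 0 → g.Splits → (g.natDegree = 3 * m ∨ r = 1 ∨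
        (PwS L' r ∧ r.natDegree = n)) → (∀ ξ, g.IsRoot ξ →
          PwS L' (q - C (φ ξ) * r) ∧
          (q - C (φ ξ) * r).natDegree = n) → π ∣ hb q r (3 * m) (g.map φ) →
        ∃ f : L[X], Associated π f ∧ f.Separable ∧ Stays L' f := by
      intro g hg hs hr hroots hdg
      rw [hb, natDegree_map] at hdg
      rcases hπ.prime.dvd_or_dvd hdg with h1 | h1
      · rcases hr with h2 | h2 | h2
        · rw [h2, Nat.sub_self, pow_zero] at h1
          exact absurd (isUnit_of_dvd_one h1) hπ.not_isUnit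
        · rw [h2, one_pow] at h1
          exact absurd (isUnit_of_dvd_one h1) hπ.not_isUnit
        · exact hform r h2.1 (hπ.prime.dvd_of_dvd_pow h1)
      · obtain ⟨ξ, hξ, h2⟩ := root_of_prime φ hg hs hπ.prime h1
        exact hform _ (hroots ξ hξ).1 h2
    rcases hπ.prime.dvd_or_dvd hd with h | h
    · refine hone b hB.hb hB.sb ?_ rb h
      rcases hF.rb with h1 | h1 | h1
      · exact Or.inr (Or.inl h1)
      · exact Or.inl h1.1
      · exact Or.inr (Or.inr h1)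
    · refine hone _ hB.hd hB.sd ?_ rd h
      rcases hF.rb with h1 | h1 | h1
      · exact Or.inr (Or.inl h1)
      · exact Or.inl h1.2
      · exact Or.inr (Or.inr h1)
  refine ⟨?_, hb0 _ b hB.hb, ?_, ?_, ?_, ?_, ?_, ?_⟩
  · rw [← map_ofNat φ 3]
    exact (map_ne_zero_iff _ φ.injective).2 hB.three
  · rw [hdisc]
    exact hb0 _ _ hB.hd
  · exact natDegree_hb_le hF.qn hF.rn (by rw [natDegree_map]; exact hB.da)
  · intro π hπ hd
    obtain ⟨f, h1, h2, -⟩ := key π hπ hd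
    exact h2.of_dvd h1.dvd
  · intro π hπ hd
    obtain ⟨f, h1, -, h2⟩ := key π hπ hd
    intro k1 h3 h4
    exact ((h1.map (mapRingHom (algebraMap L k1))).irreducible_iff).2 (h2 k1 h3 h4)
  · obtain ⟨ξ, hξ⟩ := hB.ob
    exact not_cst_cube_pull8 φ hco hq hr0 hB.hb hB.sb (fun ξ h => (rb ξ h).1.pw) hξ
  · obtain ⟨ξ, hξ⟩ := hB.od
    rw [hdisc]
    exact not_cst_cube_pull8 φ hco hq hr0 hB.hd hB.sd (fun ξ h => (rd ξ h).1.pw) hξ

end


section tate

variable {k K₀ : Type} [Field k] [Field K₀] [Algebra k[X] K₀] [IsFractionRing k[X] K₀]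
  {m n : ℕ} {a b : k[X]}
  {L L' K F : Type} [Field L] [Field L'] [Algebra L L'] [Field K] [Algebra L[X] K]
  [Field F] [Algebra L'[X] F] [IsFractionRing L'[X] F] [Algebra K F]

theorem tate_pull8 (hT : IsTower L L' K F) (hB : Base3 K₀ m a b) (φ : k →+* L) {q r : L[X]}
    (hF : Fib8 φ L' q r m n a b)
    (hpar : ¬ 3 ∣ n) :
    TateAt (F := F) 3 L' (crv3 (algebraMap L[X] K (hb q r m (a.map φ)))
      (algebraMap L[X] K (hb q r (3 * m) (b.map φ)))) := by
  haveI := hT.fracK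
  have hco := hF.co
  have hq := hF.qp
  have hr0 := hF.r0
  have hdisc := disc_pull φ hB hr0 hco hq
  have h3a := a_pull φ hB hr0 hco hq
  have hH := hyp_pull8 φ hB hF
  obtain ⟨ψ, hψ⟩ := exists_psi (K₀ := K₀) (K := K) φ (q := q) hr0 (fun g hg =>
    pb_ne hco hq ((Polynomial.map_ne_zero_iff φ.injective).2 hg))
  refine tate3i (F := F) hT hH rfl rfl ?_ ?_
  · intro A h1 h2 h4
    obtain ⟨P₀, P, c, h, hc, hh, -, e⟩ := comp_pull8 (K₀ := K₀) (K := K) φ hB.three hB.da hB.db hB.hb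
      hB.hd hB.sb hB.c1 hr0 hF.npos hψ (fun ξ h => by
        obtain ⟨i2, i3⟩ := hF.fb ξ (by rw [IsRoot.def, eval_mul, IsRoot.def.1 h, zero_mul])
        exact ⟨i2.pw, i3⟩)
      (by
        rcases hF.rb with h | h | h
        · exact Or.inl h
        · exact Or.inr (Or.inl h.1)
        · exact Or.inr (Or.inr ⟨h.1.pw, h.2⟩))
      hpar rfl rfl A h1 h2 h4
    obtain ⟨w, hw, ew⟩ := inF (F := F) hT hH.three hc hh e
    exact ⟨P, w, hw, ew⟩
  · intro B h1 h2 h4
    have hdd : (3 * a) ^ 3 - 27 * (a ^ 3 - 27 * b) ≠ 0 := by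
      rw [dual_disc]
      exact mul_ne_zero (C_ne_zero.2 (pow_ne_zero 6 hB.three)) hB.hb
    rw [hdisc] at h2 h4
    have eK : algebraMap L[X] K (hb q r m (a.map φ)) ^ 3 -
        27 * algebraMap L[X] K (hb q r (3 * m) (b.map φ)) =
        algebraMap L[X] K (hb q r (3 * m) ((a ^ 3 - 27 * b).map φ)) := by
      rw [← hdisc, map_sub, map_mul, map_pow, map_ofNat]
    have e3 : 3 * algebraMap L[X] K (hb q r m (a.map φ)) =
        algebraMap L[X] K (hb q r m ((3 * a).map φ)) := by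
      rw [← h3a, map_mul, map_ofNat]
    obtain ⟨P₀, P, c, h, hc, hh, -, e⟩ := comp_pull8 (K₀ := K₀) (K := K) φ hB.three
      (three_a.trans hB.da) hB.dd hB.hd hdd hB.sd hB.c2 hr0 hF.npos hψ (fun ξ h => by
        obtain ⟨i2, i3⟩ := hF.fb ξ (by rw [IsRoot.def, eval_mul, IsRoot.def.1 h, mul_zero])
        exact ⟨i2.pw, i3⟩)
      (by
        rcases hF.rb with h | h | h
        · exact Or.inl h
        · exact Or.inr (Or.inl h.2)
        · exact Or.inr (Or.inr ⟨h.1.pw, h.2⟩))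
      hpar e3 eK B h1 h2 h4
    obtain ⟨w, hw, ew⟩ := inF (F := F) hT hH.three hc hh e
    exact ⟨P, w, hw, ew⟩

end tate



section points

variable {k K₀ : Type} [Field k] [Field K₀] [Algebra k[X] K₀] [IsFractionRing k[X] K₀]
  {m n : ℕ} {a b : k[X]}
  {L L' K F : Type} [Field L] [Field L'] [Algebra L L'] [Field K] [Algebra L[X] K]
  [Field F] [Algebra L'[X] F] [IsFractionRing L'[X] F] [Algebra K F]

theorem mw_pull8 (hT : IsTower L L' K F) (hB : Base3 K₀ m a b) (φ : k →+* L) {q r : L[X]}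
    (hF : Fib8 φ L' q r m n a b)
    (hpar : ¬ 3 ∣ n) :
    ∃ (ψ : K₀ →+* K) (ι : Pt (crv3 (algebraMap k[X] K₀ a) (algebraMap k[X] K₀ b)) K₀ →+
        Pt (crv3 (algebraMap L[X] K (hb q r m (a.map φ)))
          (algebraMap L[X] K (hb q r (3 * m) (b.map φ)))) K),
      (∀ g : k[X], algebraMap L[X] K (pb q r (g.map φ)) =
        (algebraMap L[X] K r) ^ g.natDegree * ψ (algebraMap k[X] K₀ g)) ∧
      Function.Injective ι ∧
      (∀ (x y : K₀) (hn : ((crv3 (algebraMap k[X] K₀ a)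
          (algebraMap k[X] K₀ b)).baseChange K₀).toAffine.Nonsingular x y),
        ∃ hn' : ((crv3 (algebraMap L[X] K (hb q r m (a.map φ)))
          (algebraMap L[X] K (hb q r (3 * m) (b.map φ)))).baseChange K).toAffine.Nonsingular
            (((algebraMap L[X] K r) ^ m) ^ 2 * ψ x) (((algebraMap L[X] K r) ^ m) ^ 3 * ψ y),
          ι (Point.some x y hn) = Point.some _ _ hn') ∧
      (((∀ x : L, x ^ 2 + x + 1 ≠ 0) ∨ ∃ x : k, x ^ 2 + x + 1 = 0) →
        ∀ P : Pt (crv3 (algebraMap L[X] K (hb q r m (a.map φ)))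
          (algebraMap L[X] K (hb q r (3 * m) (b.map φ)))) K,
        ∃ (Q : Pt (crv3 (algebraMap L[X] K (hb q r m (a.map φ)))
          (algebraMap L[X] K (hb q r (3 * m) (b.map φ)))) K)
          (P₀ : Pt (crv3 (algebraMap k[X] K₀ a) (algebraMap k[X] K₀ b)) K₀),
          P = 3 • Q + ι P₀) := by
  haveI := hT.sep
  haveI := hT.fracK
  haveI : IsSepClosed L' := IsSepClosure.sep_closed L
  haveI : IsSepClosure K (Sep F) := sepKΩ hT.map
  haveI : Algebra.IsSeparable K (Sep F) := IsSepClosure.separable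
  haveI : IsGalois K (Sep F) := inferInstance
  have hco := hF.co
  have hq := hF.qp
  have hr0 := hF.r0
  have hr0' : algebraMap L[X] K r ≠ 0 := by simpa using hr0
  have hH := hyp_pull8 φ hB hF
  obtain ⟨ψ, hψ⟩ := exists_psi (K₀ := K₀) (K := K) φ (q := q) hr0 (fun g hg =>
    pb_ne hco hq ((Polynomial.map_ne_zero_iff φ.injective).2 hg))
  have ρa := hb_psi φ hψ hB.da
  have ρb : algebraMap L[X] K (hb q r (3 * m) (b.map φ)) =
      ((algebraMap L[X] K r) ^ m) ^ 3 * ψ (algebraMap k[X] K₀ b) := by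
    rw [hb_psi φ hψ hB.db, ← pow_mul, mul_comm m 3]
  obtain ⟨ι, hι, hs, hp⟩ := exists_hom3 ψ (pow_ne_zero m hr0') ρa ρb
  refine ⟨ψ, ι, hψ, hι, hs, fun hcase => ?_⟩
  have inj₀ := IsFractionRing.injective k[X] K₀
  have h3₀ : (3 : K₀) ≠ 0 := by
    have h3 : algebraMap k[X] K₀ (C 3) ≠ 0 := by simpa using hB.three
    rwa [C_ofNat, map_ofNat] at h3
  have hb₀ : algebraMap k[X] K₀ b ≠ 0 := by
    rw [Ne, map_eq_zero_iff _ inj₀]; exact hB.hb
  have hd₀ : (algebraMap k[X] K₀ a) ^ 3 - 27 * algebraMap k[X] K₀ b ≠ 0 := by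
    have e : (algebraMap k[X] K₀ a) ^ 3 - 27 * algebraMap k[X] K₀ b =
        algebraMap k[X] K₀ (a ^ 3 - 27 * b) := by
      rw [map_sub, map_mul, map_pow, map_ofNat]
    rw [e, Ne, map_eq_zero_iff _ inj₀]
    exact hB.hd
  have hdisc := disc_pull φ hB hr0 hco hq
  have h3a := a_pull φ hB hr0 hco hq
  have oB : (∀ x : L, x ^ 2 + x + 1 ≠ 0) ∨ ∀ zK : K, zK ^ 2 + zK + 1 = 0 → ∀ B : L[X], B ≠ 0 →
      (∀ π : L[X], Irreducible π → π ∣ B →
        π ∣ hb q r m (a.map φ) ^ 3 - 27 * hb q r (3 * m) (b.map φ)) →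
      ((hb q r m (a.map φ) ^ 3 - 27 * hb q r (3 * m) (b.map φ)).natDegree = 3 * (n * m) →
        3 ∣ B.natDegree) →
      HPt F (algebraMap L[X] K (hb q r m (a.map φ)))
        (algebraMap L[X] K (hb q r (3 * m) (b.map φ))) zK
        (fun Q => ∃ P₀ : Pt (crv3 (algebraMap k[X] K₀ a) (algebraMap k[X] K₀ b)) K₀, ι P₀ = Q)
        B := by
    rcases hcase with hω | ⟨ω, hω⟩
    · exact Or.inl hω
    right
    intro zK hzK B h1 h2 h4
    -- `zK` is constant
    obtain ⟨z₀, hz₀⟩ : ∃ z₀ : K₀, zK = ψ z₀ := by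
      obtain ⟨w, hw⟩ : ∃ w : K, w = ψ (algebraMap k[X] K₀ (C ω)) := ⟨_, rfl⟩
      have hw1 : w ^ 2 + w + 1 = 0 := by
        rw [hw, ← map_pow, ← map_pow, ← C_pow, ← map_add ψ, ← map_add (algebraMap k[X] K₀),
          ← C_add, ← map_one ψ, ← map_add ψ, ← map_one (algebraMap k[X] K₀),
          ← map_add (algebraMap k[X] K₀), ← C_1, ← C_add, hω, C_0, map_zero, map_zero]
      have hw3 : w ^ 3 = 1 := z3 hw1
      have h5 : (zK - w) * (zK - w ^ 2) = 0 := by
        linear_combination hzK - zK * hw1 + hw3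
      rcases mul_eq_zero.1 h5 with h6 | h6
      · exact ⟨_, (sub_eq_zero.1 h6).trans hw⟩
      · exact ⟨(algebraMap k[X] K₀ (C ω)) ^ 2, by rw [map_pow, ← hw]; exact sub_eq_zero.1 h6⟩
    have hdd : (3 * a) ^ 3 - 27 * (a ^ 3 - 27 * b) ≠ 0 := by
      rw [dual_disc]
      exact mul_ne_zero (C_ne_zero.2 (pow_ne_zero 6 hB.three)) hB.hb
    rw [hdisc] at h2 h4
    have eK : algebraMap L[X] K (hb q r m (a.map φ)) ^ 3 -
        27 * algebraMap L[X] K (hb q r (3 * m) (b.map φ)) =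
        algebraMap L[X] K (hb q r (3 * m) ((a ^ 3 - 27 * b).map φ)) := by
      rw [← hdisc, map_sub, map_mul, map_pow, map_ofNat]
    have e3 : 3 * algebraMap L[X] K (hb q r m (a.map φ)) =
        algebraMap L[X] K (hb q r m ((3 * a).map φ)) := by
      rw [← h3a, map_mul, map_ofNat]
    obtain ⟨P₀, P, c, h, hc, hh, hP, e⟩ := comp_pull8 (K₀ := K₀) (K := K) φ hB.three
      (three_a.trans hB.da) hB.dd hB.hd hdd hB.sd hB.c2 hr0 hF.npos hψ (fun ξ h => by
        obtain ⟨i2, i3⟩ := hF.fb ξ (by rw [IsRoot.def, eval_mul, IsRoot.def.1 h, mul_zero])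
        exact ⟨i2.pw, i3⟩)
      (by
        rcases hF.rb with h | h | h
        · exact Or.inl h
        · exact Or.inr (Or.inl h.2)
        · exact Or.inr (Or.inr ⟨h.1.pw, h.2⟩))
      hpar e3 eK B h1 h2 h4
    obtain ⟨w, hw, ew⟩ := inF (F := F) hT hH.three hc hh e
    refine hpt_dual (F := F) ψ (pow_ne_zero m hr0') ρa ρb h3₀ hb₀ hd₀ hs hzK hz₀ ?_ hw ew
    rcases hP with ⟨-, rfl⟩ | ⟨x, y, h5, h6, -, rfl⟩
    · exact Or.inl rfl
    · exact Or.inr ⟨x, y, h6, rfl⟩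
  have key := mw3j (F := F) hT hH rfl rfl (GA := fun T => ∃ P₀ : Pt (crv3 (algebraMap k[X] K₀ a)
    (algebraMap k[X] K₀ b)) K₀, ι P₀ = T) (GB := fun T => ∃ P₀ : Pt (crv3 (algebraMap k[X] K₀ a)
    (algebraMap k[X] K₀ b)) K₀, ι P₀ = T) ⟨0, map_zero _⟩ (fun A h1 h2 h4 => by
      obtain ⟨P₀, P, c, h, hc, hh, hP, e⟩ := comp_pull8 (K₀ := K₀) (K := K) φ hB.three hB.da hB.db
        hB.hb hB.hd hB.sb hB.c1 hr0 hF.npos hψ (fun ξ h => by
          obtain ⟨i2, i3⟩ := hF.fb ξ (by rw [IsRoot.def, eval_mul, IsRoot.def.1 h, zero_mul])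
          exact ⟨i2.pw, i3⟩)
        (by
          rcases hF.rb with h | h | h
          · exact Or.inl h
          · exact Or.inr (Or.inl h.1)
          · exact Or.inr (Or.inr ⟨h.1.pw, h.2⟩))
        hpar rfl rfl A h1 h2 h4
      obtain ⟨w, hw, ew⟩ := inF (F := F) hT hH.three hc hh e
      exact ⟨P, w, ⟨P₀, hp P₀ P hP⟩, hw, ew⟩) oB
  intro P
  obtain ⟨Q, T, U, ⟨P₀, hP⟩, ⟨P1, hP1⟩, e⟩ := key P
  exact ⟨Q, P₀ + P1, by rw [map_add, hP, hP1]; exact e⟩

end points



section holds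

variable {k K₀ : Type} [Field k] [Field K₀] [Algebra k[X] K₀] [IsFractionRing k[X] K₀]
  {m n : ℕ} {a b : k[X]}

theorem holds_fib8 (hB : Base3 K₀ m a b) {q r : k[X]}
    {L L' K F : Type} [Field L] [Field L'] [Algebra L L'] [Field K] [Algebra L[X] K]
    [Field F] [Algebra L'[X] F] [IsFractionRing L'[X] F] [Algebra K F]
    [Algebra k L] (hT : IsTower L L' K F)
    (hF : Fib8 (algebraMap k L) L' (q.map (algebraMap k L)) (r.map (algebraMap k L)) m n a b)
    (hpar : ¬ 3 ∣ n) :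
    TateAt (F := F) 3 L' (EQ L K m a b q r) ∧ PointsMod K₀ m a b q r L K := by
  haveI := hT.fracK
  have e1 := hb_map (algebraMap k L) q r m a
  have e2 := hb_map (algebraMap k L) q r (3 * m) b
  have hr0 : algebraMap L[X] K (r.map (algebraMap k L)) ≠ 0 := by simpa using hF.r0
  refine ⟨?_, ?_⟩
  · have := tate_pull8 (K₀ := K₀) (F := F) hT hB (algebraMap k L) hF hpar
    rw [← e1, ← e2] at this
    exact this
  · have key := mw_pull8 (K₀ := K₀) (F := F) hT hB (algebraMap k L) hF hpar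
    rw [← e1, ← e2] at key
    obtain ⟨ψ, ι, hψ, hι, hs, hP⟩ := key
    refine ⟨ψ, ι, fun c => ?_, ?_, hι, hs, fun hω => ⟨hP hω, fun hfg => ?_⟩⟩
    · have := hψ (C c)
      rw [map_C, Pool.Agent.X243.Gen.pb_C, natDegree_C, pow_zero, one_mul] at this
      exact this.symm
    · have := hψ X
      have e3 : pb (q.map (algebraMap k L)) (r.map (algebraMap k L)) (X.map (algebraMap k L)) =
          q.map (algebraMap k L) := by
        have h4 := Pool.Agent.X243.Gen.pb_lin (q.map (algebraMap k L)) (r.map (algebraMap k L)) 0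
        rw [C_0, sub_zero, zero_mul, sub_zero] at h4
        rw [map_X, h4]
      rw [e3, natDegree_X, pow_one] at this
      rw [eq_div_iff hr0, this, mul_comm]
    · obtain ⟨N, hN, hN'⟩ := three_exponent ι.range hfg fun P => by
        obtain ⟨Q, P₀, e⟩ := hP hω P
        exact ⟨Q, ι P₀, ⟨P₀, rfl⟩, e⟩
      refine ⟨N, hN, fun P => ?_⟩
      obtain ⟨P₀, e⟩ := hN' P
      exact ⟨P₀, e.symm⟩

end holds


end Pool.Agent.N181.P8
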