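import Pool.Agent.N181.P8.Deg

/-!
Complete first descents for all the rational elliptic surfaces `y² + a x y + b y = x³`.
-/

set_option autoImplicit false
set_option linter.all false

open Polynomial IsDedekindDomain WeierstrassCurve WeierstrassCurve.Affine
open scoped Classical

namespace Pool.Agent.N181.P8

open Pool.Agent.N181.T3 Pool.Agent.N181.P3
open Pool.Agent.TH115.GD (Pt act incl rs ak Sep pl)

section comp

variable {k : Type} [Field k] {K : Type} [Field K] [Algebra k[X] K] [IsFractionRing k[X] K]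
  {a b : k[X]}


/-- Three polynomials with the sum `a` and the product `b` give a point. -/
theorem rep_sum (h3 : (3 : k) ≠ 0) (hb : b ≠ 0) (hd : a ^ 3 - 27 * b ≠ 0) {u v w : k[X]}
    (hs : u + v + w = a) (hp : u * v * w = b) :
    RepK k (algebraMap k[X] K a) (algebraMap k[X] K b) (algebraMap k[X] K (u ^ 2 * w)) := by
  obtain ⟨n1, n2, n3⟩ := ne3 (K := K) h3 hb hd
  have inj := IsFractionRing.injective k[X] K
  have hu : u ≠ 0 := by
    rintro rfl
    rw [zero_mul, zero_mul] at hp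
    exact hb hp.symm
  have hw : w ≠ 0 := by
    rintro rfl
    rw [mul_zero] at hp
    exact hb hp.symm
  refine RepK.pt (x := algebraMap k[X] K (-(u * w))) n1 n2 n3 ?_ ?_
  · rw [Ne, map_eq_zero_iff _ inj]
    exact mul_ne_zero (pow_ne_zero 2 hu) hw
  · rw [← map_pow, ← map_mul, ← map_mul, ← map_mul, ← map_add, ← map_add, ← map_pow]
    congr 1
    rw [← hp, ← hs]
    ring

/-- Classes of constant multiples. -/
theorem rep_const (h3 : (3 : k) ≠ 0) (hb : b ≠ 0) (hd : a ^ 3 - 27 * b ≠ 0) {c : k} (hc : c ≠ 0)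
    {p : k[X]} (h : RepK k (algebraMap k[X] K a) (algebraMap k[X] K b)
      (algebraMap k[X] K (C c * p))) :
    RepK k (algebraMap k[X] K a) (algebraMap k[X] K b) (algebraMap k[X] K p) := by
  obtain ⟨n1, n2, n3⟩ := ne3 (K := K) h3 hb hd
  have h1 := (RepK.const (K := K) (a := algebraMap k[X] K a) (b := algebraMap k[X] K b)
    (inv_ne_zero hc)).mul n1 n2 n3 h
  rw [← map_mul, ← mul_assoc, ← C_mul, inv_mul_cancel₀ hc, C_1, one_mul] at h1
  exact h1

/-- Classes up to cubes of polynomials. -/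
theorem rep_cube {p z : k[X]} (hz : z ≠ 0)
    (h : RepK k (algebraMap k[X] K a) (algebraMap k[X] K b) (algebraMap k[X] K (z ^ 3 * p))) :
    RepK k (algebraMap k[X] K a) (algebraMap k[X] K b) (algebraMap k[X] K p) := by
  have inj := IsFractionRing.injective k[X] K
  rw [map_mul, map_pow] at h
  exact h.of_cube (by rw [Ne, map_eq_zero_iff _ inj]; exact hz)

theorem rep_cube' {z : k[X]} (hz : z ≠ 0) :
    RepK k (algebraMap k[X] K a) (algebraMap k[X] K b) (algebraMap k[X] K (z ^ 3)) := by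
  have inj := IsFractionRing.injective k[X] K
  have h := (RepK.one (k := k) (K := K) (a := algebraMap k[X] K a)
    (b := algebraMap k[X] K b)).cube (z := algebraMap k[X] K z)
    (by rw [Ne, map_eq_zero_iff _ inj]; exact hz)
  rwa [mul_one, ← map_pow] at h

theorem rep_mul (h3 : (3 : k) ≠ 0) (hb : b ≠ 0) (hd : a ^ 3 - 27 * b ≠ 0) {p p' : k[X]}
    (h : RepK k (algebraMap k[X] K a) (algebraMap k[X] K b) (algebraMap k[X] K p))
    (h' : RepK k (algebraMap k[X] K a) (algebraMap k[X] K b) (algebraMap k[X] K p')) :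
    RepK k (algebraMap k[X] K a) (algebraMap k[X] K b) (algebraMap k[X] K (p * p')) := by
  obtain ⟨n1, n2, n3⟩ := ne3 (K := K) h3 hb hd
  rw [map_mul]
  exact h.mul n1 n2 n3 h'

theorem rep_b (h3 : (3 : k) ≠ 0) (hb : b ≠ 0) (hd : a ^ 3 - 27 * b ≠ 0) :
    RepK k (algebraMap k[X] K a) (algebraMap k[X] K b) (algebraMap k[X] K b) := by
  obtain ⟨n1, n2, n3⟩ := ne3 (K := K) h3 hb hd
  exact RepK.ofb n1 n2 n3

theorem splits_lin {κ : k} {s : Multiset k} : (C κ * (s.map fun ξ => X - C ξ).prod).Splits := by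
  apply Splits.C_mul
  exact Splits.multisetProd (by
    intro f hf
    obtain ⟨ξ, -, rfl⟩ := Multiset.mem_map.1 hf
    exact Splits.X_sub_C ξ)

/-- One root. -/
theorem comp_one (h3 : (3 : k) ≠ 0) (hd : a ^ 3 - 27 * b ≠ 0) {κ ξ : k} (hκ : κ ≠ 0)
    (e : b = C κ * (X - C ξ)) : Comp3 K 1 a b := by
  have hb : b ≠ 0 := by rw [e]; exact mul_ne_zero (C_ne_zero.2 hκ) (X_sub_C_ne_zero ξ)
  refine comp_of h3 hb hd (by rw [e]; exact (Splits.X_sub_C ξ).C_mul κ) one_ne_zero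
    (Or.inl rfl) fun x hx => ?_
  have hx' : x = ξ := by
    rw [e, IsRoot.def, eval_mul, eval_C, eval_sub, eval_X, eval_C] at hx
    exact sub_eq_zero.1 ((mul_eq_zero.1 hx).resolve_left hκ)
  rw [hx', mul_one]
  refine rep_const h3 hb hd hκ ?_
  have h1 := rep_b (K := K) h3 hb hd
  rwa [← e]

/-- A double root. -/
theorem comp_double (h3 : (3 : k) ≠ 0) (hd : a ^ 3 - 27 * b ≠ 0) {κ ξ : k} (hκ : κ ≠ 0)
    (e : b = C κ * (X - C ξ) ^ 2) : Comp3 K 1 a b := by
  have hb : b ≠ 0 := by rw [e]; exact mul_ne_zero (C_ne_zero.2 hκ) (pow_ne_zero 2 (X_sub_C_ne_zero ξ))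
  refine comp_of h3 hb hd (by rw [e]; exact ((Splits.X_sub_C ξ).pow 2).C_mul κ) one_ne_zero
    (Or.inl rfl) fun x hx => ?_
  have hx' : x = ξ := by
    rw [e, IsRoot.def, eval_mul, eval_C, eval_pow, eval_sub, eval_X, eval_C] at hx
    exact sub_eq_zero.1 (pow_eq_zero_iff (by norm_num) |>.1 ((mul_eq_zero.1 hx).resolve_left hκ))
  rw [hx', mul_one]
  refine rep_cube (z := X - C ξ) (X_sub_C_ne_zero ξ) (rep_const h3 hb hd (pow_ne_zero 2 hκ) ?_)
  have h1 := rep_mul h3 hb hd (rep_b (K := K) h3 hb hd) (rep_b (K := K) h3 hb hd)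
  have e2 : C (κ ^ 2) * ((X - C ξ) ^ 3 * (X - C ξ)) = b * b := by
    rw [e, C_pow]; ring
  rwa [e2]

/-- A double root and a simple root. -/
theorem comp_double' (h3 : (3 : k) ≠ 0) (hd : a ^ 3 - 27 * b ≠ 0) {κ ξ ξ' : k} (hκ : κ ≠ 0)
    (e : b = C κ * ((X - C ξ) ^ 2 * (X - C ξ'))) : Comp3 K 1 a b := by
  have inj := IsFractionRing.injective k[X] K
  have hb : b ≠ 0 := by
    rw [e]
    exact mul_ne_zero (C_ne_zero.2 hκ) (mul_ne_zero (pow_ne_zero 2 (X_sub_C_ne_zero ξ))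
      (X_sub_C_ne_zero ξ'))
  refine comp_of (g := algebraMap k[X] K ((X - C ξ) ^ 2)) h3 hb hd (by
    rw [e]; exact (((Splits.X_sub_C ξ).pow 2).mul (Splits.X_sub_C ξ')).C_mul κ) (by
    rw [Ne, map_eq_zero_iff _ inj]; exact pow_ne_zero 2 (X_sub_C_ne_zero ξ))
    (Or.inr (by
      rw [e, natDegree_C_mul hκ, natDegree_mul (pow_ne_zero 2 (X_sub_C_ne_zero ξ))
        (X_sub_C_ne_zero ξ'), natDegree_pow, natDegree_X_sub_C, natDegree_X_sub_C])) fun x hx => ?_
  rw [← map_mul]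
  rw [e, IsRoot.def, eval_mul, eval_C, eval_mul, eval_pow, eval_sub, eval_X, eval_C, eval_sub,
    eval_X, eval_C] at hx
  rcases mul_eq_zero.1 ((mul_eq_zero.1 hx).resolve_left hκ) with h | h
  · have hx' : x = ξ := sub_eq_zero.1 (pow_eq_zero_iff (by norm_num) |>.1 h)
    rw [hx']
    have h1 := rep_cube' (K := K) (a := a) (b := b) (X_sub_C_ne_zero ξ)
    have e2 : (X - C ξ) * (X - C ξ) ^ 2 = (X - C ξ) ^ 3 := by ring
    rwa [e2]
  · have hx' : x = ξ' := sub_eq_zero.1 h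
    rw [hx']
    refine rep_const h3 hb hd hκ ?_
    have h1 := rep_b (K := K) h3 hb hd
    have e2 : C κ * ((X - C ξ') * (X - C ξ) ^ 2) = b := by rw [e]; ring
    rwa [e2]

/-- Two simple roots. -/
theorem comp_two (h3 : (3 : k) ≠ 0) (hd : a ^ 3 - 27 * b ≠ 0) {κ ξ ξ' c1 c2 c3 : k} (hκ : κ ≠ 0)
    (e : b = C κ * ((X - C ξ) * (X - C ξ'))) (hc : c1 * c2 * c3 = κ)
    (hs : C c1 + C c2 * (X - C ξ) + C c3 * (X - C ξ') = a) : Comp3 K 1 a b := by
  have hb : b ≠ 0 := by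
    rw [e]
    exact mul_ne_zero (C_ne_zero.2 hκ) (mul_ne_zero (X_sub_C_ne_zero ξ) (X_sub_C_ne_zero ξ'))
  have hc1 : c1 ≠ 0 := by rintro rfl; apply hκ; rw [← hc]; ring
  have hc2 : c2 ≠ 0 := by rintro rfl; apply hκ; rw [← hc]; ring
  have h1 : RepK k (algebraMap k[X] K a) (algebraMap k[X] K b) (algebraMap k[X] K (X - C ξ)) := by
    have h1 := rep_sum (K := K) h3 hb hd (u := C c1) (v := C c3 * (X - C ξ'))
      (w := C c2 * (X - C ξ)) (by rw [← hs]; ring) (by rw [e, ← hc, C_mul, C_mul]; ring)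
    have e2 : (C c1) ^ 2 * (C c2 * (X - C ξ)) = C (c1 ^ 2 * c2) * (X - C ξ) := by
      rw [C_mul, C_pow]; ring
    rw [e2] at h1
    exact rep_const h3 hb hd (mul_ne_zero (pow_ne_zero 2 hc1) hc2) h1
  have h2 : RepK k (algebraMap k[X] K a) (algebraMap k[X] K b) (algebraMap k[X] K (X - C ξ')) := by
    refine rep_cube (z := X - C ξ) (X_sub_C_ne_zero ξ) (rep_const h3 hb hd hκ ?_)
    have h2 := rep_mul h3 hb hd (rep_b (K := K) h3 hb hd) (rep_mul h3 hb hd h1 h1)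
    have e2 : C κ * ((X - C ξ) ^ 3 * (X - C ξ')) = b * ((X - C ξ) * (X - C ξ)) := by rw [e]; ring
    rwa [e2]
  refine comp_of h3 hb hd (by
    rw [e]; exact ((Splits.X_sub_C ξ).mul (Splits.X_sub_C ξ')).C_mul κ) one_ne_zero
    (Or.inl rfl) fun x hx => ?_
  rw [e, IsRoot.def, eval_mul, eval_C, eval_mul, eval_sub, eval_X, eval_C, eval_sub,
    eval_X, eval_C] at hx
  rw [mul_one]
  rcases mul_eq_zero.1 ((mul_eq_zero.1 hx).resolve_left hκ) with h | h
  · rw [sub_eq_zero.1 h]; exact h1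
  · rw [sub_eq_zero.1 h]; exact h2

/-- Three simple roots. -/
theorem comp_three (h3 : (3 : k) ≠ 0) (hd : a ^ 3 - 27 * b ≠ 0) {κ ξ ξ' ξ'' c1 c2 c3 : k}
    (hκ : κ ≠ 0) (e : b = C κ * ((X - C ξ) * (X - C ξ') * (X - C ξ'')))
    (hc : c1 * c2 * c3 = κ)
    (hs : C c1 * (X - C ξ) + C c2 * (X - C ξ') + C c3 * (X - C ξ'') = a) : Comp3 K 1 a b := by
  have inj := IsFractionRing.injective k[X] K
  have n1 := X_sub_C_ne_zero ξ
  have n2 := X_sub_C_ne_zero ξ'
  have n3 := X_sub_C_ne_zero ξ''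
  have hb : b ≠ 0 := by
    rw [e]
    exact mul_ne_zero (C_ne_zero.2 hκ) (mul_ne_zero (mul_ne_zero n1 n2) n3)
  have hc1 : c1 ≠ 0 := by rintro rfl; apply hκ; rw [← hc]; ring
  have hc2 : c2 ≠ 0 := by rintro rfl; apply hκ; rw [← hc]; ring
  have h1 : RepK k (algebraMap k[X] K a) (algebraMap k[X] K b)
      (algebraMap k[X] K ((X - C ξ') * (X - C ξ) ^ 2)) := by
    have h1 := rep_sum (K := K) h3 hb hd (u := C c1 * (X - C ξ)) (v := C c3 * (X - C ξ''))
      (w := C c2 * (X - C ξ')) (by rw [← hs]; ring) (by rw [e, ← hc, C_mul, C_mul]; ring)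
    have e2 : (C c1 * (X - C ξ)) ^ 2 * (C c2 * (X - C ξ')) =
        C (c1 ^ 2 * c2) * ((X - C ξ') * (X - C ξ) ^ 2) := by
      rw [C_mul, C_pow]; ring
    rw [e2] at h1
    exact rep_const h3 hb hd (mul_ne_zero (pow_ne_zero 2 hc1) hc2) h1
  have h2 : RepK k (algebraMap k[X] K a) (algebraMap k[X] K b)
      (algebraMap k[X] K ((X - C ξ'') * (X - C ξ) ^ 2)) := by
    refine rep_cube (z := (X - C ξ) * (X - C ξ')) (mul_ne_zero n1 n2) (rep_const h3 hb hd hκ ?_)
    have h2 := rep_mul h3 hb hd (rep_b (K := K) h3 hb hd) (rep_mul h3 hb hd h1 h1)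
    have e2 : C κ * (((X - C ξ) * (X - C ξ')) ^ 3 * ((X - C ξ'') * (X - C ξ) ^ 2)) =
        b * (((X - C ξ') * (X - C ξ) ^ 2) * ((X - C ξ') * (X - C ξ) ^ 2)) := by rw [e]; ring
    rwa [e2]
  refine comp_of (g := algebraMap k[X] K ((X - C ξ) ^ 2)) h3 hb hd (by
    rw [e]; exact (((Splits.X_sub_C ξ).mul (Splits.X_sub_C ξ')).mul
      (Splits.X_sub_C ξ'')).C_mul κ) (by
    rw [Ne, map_eq_zero_iff _ inj]; exact pow_ne_zero 2 n1)
    (Or.inr (by
      rw [e, natDegree_C_mul hκ, natDegree_mul (mul_ne_zero n1 n2) n3, natDegree_mul n1 n2,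
        natDegree_X_sub_C, natDegree_X_sub_C, natDegree_X_sub_C])) fun x hx => ?_
  rw [← map_mul]
  rw [e, IsRoot.def, eval_mul, eval_C, eval_mul, eval_mul, eval_sub, eval_X, eval_C, eval_sub,
    eval_X, eval_C, eval_sub, eval_X, eval_C] at hx
  rcases mul_eq_zero.1 ((mul_eq_zero.1 hx).resolve_left hκ) with h | h
  · rcases mul_eq_zero.1 h with h | h
    · rw [sub_eq_zero.1 h]
      have h1 := rep_cube' (K := K) (a := a) (b := b) (X_sub_C_ne_zero ξ)
      have e2 : (X - C ξ) * (X - C ξ) ^ 2 = (X - C ξ) ^ 3 := by ring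
      rwa [e2]
    · rw [sub_eq_zero.1 h]; exact h1
  · rw [sub_eq_zero.1 h]; exact h2

end comp

end Pool.Agent.N181.P8
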