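import Pool.Agent.N181.P8.Comp1

/-!
The cubic polynomial whose roots give complete first descents.
-/

set_option autoImplicit false
set_option linter.all false

open Polynomial IsDedekindDomain WeierstrassCurve WeierstrassCurve.Affine
open scoped Classical

namespace Pool.Agent.N181.P8

open Pool.Agent.N181.T3 Pool.Agent.N181.P3
open Pool.Agent.TH115.GD (Pt act incl rs ak Sep pl)

section cubic

variable {k : Type} [Field k]

/-- The cubic polynomial `c (A₁ + c B₁) (A₂ + c B₂) - κ`. -/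
noncomputable def cub (A1 B1 A2 B2 κ : k) : k[X] :=
  C (B1 * B2) * X ^ 3 + C (A1 * B2 + A2 * B1) * X ^ 2 + C (A1 * A2) * X + C (-κ)

theorem cub_deg {A1 B1 A2 B2 κ : k} (h1 : B1 ≠ 0) (h2 : B2 ≠ 0) :
    (cub A1 B1 A2 B2 κ).natDegree = 3 := natDegree_cubic (mul_ne_zero h1 h2)

theorem cub_eval {k₂ : Type} [Field k₂] (φ : k →+* k₂) {A1 B1 A2 B2 κ : k} {c : k₂}
    (h : eval₂ φ c (cub A1 B1 A2 B2 κ) = 0) :
    (φ A1 + c * φ B1) * (φ A2 + c * φ B2) * c = φ κ := by
  unfold cub at h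
  simp only [eval₂_add, eval₂_mul, eval₂_C, eval₂_pow, eval₂_X, map_mul, map_add, map_neg,
    eval₂_neg] at h
  linear_combination h

theorem map_disc {k₂ : Type} [Field k₂] (φ : k →+* k₂) (a b : k[X]) :
    (a.map φ) ^ 3 - 27 * b.map φ = (a ^ 3 - 27 * b).map φ := by
  rw [Polynomial.map_sub, Polynomial.map_pow, Polynomial.map_mul, Polynomial.map_ofNat]

theorem exists_cubic (h3 : (3 : k) ≠ 0) {a b : k[X]} (da : a.natDegree ≤ 1) (db : b.natDegree ≤ 3)
    (hs : b.Splits) (hcb : ∀ (c : k) (w : k[X]), b ≠ C c * w ^ 3) (hd : a ^ 3 - 27 * b ≠ 0) :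
    ∃ G : k[X], G.natDegree = 3 ∧ ∀ (k₂ K₂ : Type) [Field k₂] [Field K₂] [Algebra k₂[X] K₂]
      [IsFractionRing k₂[X] K₂] (φ : k →+* k₂) (c : k₂), eval₂ φ c G = 0 →
        Comp3 K₂ 1 (a.map φ) (b.map φ) := by
  have hb0 : b ≠ 0 := by
    rintro rfl
    exact hcb 0 0 (by simp)
  set κ := b.leadingCoeff with hκdef
  have hκ : κ ≠ 0 := leadingCoeff_ne_zero.2 hb0
  have e := hs.eq_prod_roots
  have hcard : b.roots.card = b.natDegree := hs.natDegree_eq_card_roots.symm
  have ea := eq_X_add_C_of_natDegree_le_one da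
  set α1 := a.coeff 1
  set α0 := a.coeff 0
  have h3' : ∀ (k₂ : Type) [Field k₂] (φ : k →+* k₂), (3 : k₂) ≠ 0 := fun k₂ _ φ => by
    rw [← map_ofNat φ 3]
    exact (map_ne_zero_iff _ φ.injective).2 h3
  have hd' : ∀ (k₂ : Type) [Field k₂] (φ : k →+* k₂), (a.map φ) ^ 3 - 27 * b.map φ ≠ 0 :=
    fun k₂ _ φ => by
      rw [map_disc]
      exact (Polynomial.map_ne_zero_iff φ.injective).2 hd
  have hκ' : ∀ (k₂ : Type) [Field k₂] (φ : k →+* k₂), φ κ ≠ 0 := fun k₂ _ φ =>
    (map_ne_zero_iff _ φ.injective).2 hκ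
  have triv : (cub 0 1 0 1 (0 : k)).natDegree = 3 := cub_deg one_ne_zero one_ne_zero
  obtain h0 | h0 | h0 | h0 : b.roots.card = 0 ∨ b.roots.card = 1 ∨ b.roots.card = 2 ∨
    b.roots.card = 3 := by omega
  · exfalso
    rw [Multiset.card_eq_zero] at h0
    rw [h0, Multiset.map_zero, Multiset.prod_zero, mul_one] at e
    exact hcb κ 1 (by rw [one_pow, mul_one]; exact e)
  · obtain ⟨ξ, hξ⟩ := Multiset.card_eq_one.1 h0
    rw [hξ, Multiset.map_singleton, Multiset.prod_singleton] at e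
    refine ⟨_, triv, fun k₂ K₂ _ _ _ _ φ c _ => ?_⟩
    refine comp_one (κ := φ κ) (ξ := φ ξ) (h3' k₂ φ) (hd' k₂ φ) (hκ' k₂ φ) ?_
    conv_lhs => rw [e]
    rw [Polynomial.map_mul, Polynomial.map_sub, map_X, map_C, map_C]
  · obtain ⟨ξ, ξ', hξ⟩ := Multiset.card_eq_two.1 h0
    rw [hξ] at e
    simp only [Multiset.insert_eq_cons, Multiset.map_cons, Multiset.map_singleton,
      Multiset.prod_cons, Multiset.prod_singleton] at e
    by_cases hne : ξ = ξ'
    · refine ⟨_, triv, fun k₂ K₂ _ _ _ _ φ c _ => ?_⟩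
      refine comp_double (κ := φ κ) (ξ := φ ξ) (h3' k₂ φ) (hd' k₂ φ) (hκ' k₂ φ) ?_
      conv_lhs => rw [e]
      rw [← hne, ← pow_two, Polynomial.map_mul, Polynomial.map_pow, Polynomial.map_sub, map_X,
        map_C, map_C]
    · refine ⟨cub (α0 + α1 * ξ) (ξ' - ξ) α1 (-1) κ, cub_deg (sub_ne_zero.2 (Ne.symm hne))
        (neg_ne_zero.2 one_ne_zero), fun k₂ K₂ _ _ _ _ φ c hc => ?_⟩
      have h4 := cub_eval φ hc
      refine comp_two (κ := φ κ) (ξ := φ ξ) (ξ' := φ ξ') (h3' k₂ φ) (hd' k₂ φ) (hκ' k₂ φ) ?_ h4 ?_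
      · conv_lhs => rw [e]
        rw [Polynomial.map_mul, Polynomial.map_mul, Polynomial.map_sub, Polynomial.map_sub, map_X,
          map_C, map_C, map_C]
      · conv_rhs => rw [ea]
        simp only [Polynomial.map_add, Polynomial.map_mul, map_X, map_C, map_add, map_mul, map_sub,
          map_neg, map_one]
        ring
  · obtain ⟨ξ, ξ', ξ'', hξ⟩ := Multiset.card_eq_three.1 h0
    rw [hξ] at e
    simp only [Multiset.insert_eq_cons, Multiset.map_cons, Multiset.map_singleton,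
      Multiset.prod_cons, Multiset.prod_singleton] at e
    by_cases h1 : ξ = ξ'
    · by_cases h2 : ξ = ξ''
      · exfalso
        apply hcb κ (X - C ξ)
        conv_lhs => rw [e]
        rw [← h1, ← h2]
        ring
      · refine ⟨_, triv, fun k₂ K₂ _ _ _ _ φ c _ => ?_⟩
        refine comp_double' (κ := φ κ) (ξ := φ ξ) (ξ' := φ ξ'') (h3' k₂ φ) (hd' k₂ φ) (hκ' k₂ φ) ?_
        conv_lhs => rw [e]
        rw [← h1]
        simp only [Polynomial.map_mul, Polynomial.map_sub, map_X, map_C]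
        ring
    · by_cases h2 : ξ = ξ''
      · refine ⟨_, triv, fun k₂ K₂ _ _ _ _ φ c _ => ?_⟩
        refine comp_double' (κ := φ κ) (ξ := φ ξ) (ξ' := φ ξ') (h3' k₂ φ) (hd' k₂ φ) (hκ' k₂ φ) ?_
        conv_lhs => rw [e]
        rw [← h2]
        simp only [Polynomial.map_mul, Polynomial.map_sub, map_X, map_C]
        ring
      · by_cases h5 : ξ' = ξ''
        · refine ⟨_, triv, fun k₂ K₂ _ _ _ _ φ c _ => ?_⟩
          refine comp_double' (κ := φ κ) (ξ := φ ξ') (ξ' := φ ξ) (h3' k₂ φ) (hd' k₂ φ) (hκ' k₂ φ) ?_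
          conv_lhs => rw [e]
          rw [← h5]
          simp only [Polynomial.map_mul, Polynomial.map_sub, map_X, map_C]
          ring
        · have hδ : ξ' - ξ ≠ 0 := sub_ne_zero.2 (Ne.symm h1)
          refine ⟨cub ((α0 + ξ' * α1) / (ξ' - ξ)) ((ξ'' - ξ') / (ξ' - ξ))
            ((-α0 - ξ * α1) / (ξ' - ξ)) ((ξ - ξ'') / (ξ' - ξ)) κ, cub_deg
            (div_ne_zero (sub_ne_zero.2 (Ne.symm h5)) hδ) (div_ne_zero (sub_ne_zero.2 h2) hδ),
            fun k₂ K₂ _ _ _ _ φ c hc => ?_⟩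
          have h4 := cub_eval φ hc
          refine comp_three (κ := φ κ) (ξ := φ ξ) (ξ' := φ ξ') (ξ'' := φ ξ'') (h3' k₂ φ)
            (hd' k₂ φ) (hκ' k₂ φ) ?_ h4 ?_
          · conv_lhs => rw [e]
            simp only [Polynomial.map_mul, Polynomial.map_sub, map_X, map_C]
            ring
          · conv_rhs => rw [ea]
            have hδ' : φ ξ' - φ ξ ≠ 0 := by
              rw [← map_sub]
              exact (map_ne_zero_iff _ φ.injective).2 hδ
            have hs1 : (φ ((α0 + ξ' * α1) / (ξ' - ξ)) + c * φ ((ξ'' - ξ') / (ξ' - ξ))) +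
                (φ ((-α0 - ξ * α1) / (ξ' - ξ)) + c * φ ((ξ - ξ'') / (ξ' - ξ))) + c = φ α1 := by
              simp only [map_div₀, map_add, map_sub, map_mul, map_neg]
              field_simp
              ring
            have hs2 : (φ ((α0 + ξ' * α1) / (ξ' - ξ)) + c * φ ((ξ'' - ξ') / (ξ' - ξ))) * φ ξ +
                (φ ((-α0 - ξ * α1) / (ξ' - ξ)) + c * φ ((ξ - ξ'') / (ξ' - ξ))) * φ ξ' +
                c * φ ξ'' = -φ α0 := by
              simp only [map_div₀, map_add, map_sub, map_mul, map_neg]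
              field_simp
              ring
            have hs1' := congrArg (C : k₂ → k₂[X]) hs1
            have hs2' := congrArg (C : k₂ → k₂[X]) hs2
            simp only [C_add, C_mul, C_neg] at hs1' hs2'
            simp only [Polynomial.map_add, Polynomial.map_mul, map_X, map_C, C_add, C_mul]
            linear_combination X * hs1' - hs2'

end cubic

end Pool.Agent.N181.P8
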