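import Pool.Agent.N181.P8.Base

/-!
Extensions of degree prime to `n`.
-/

set_option autoImplicit false
set_option linter.all false

open Polynomial
open scoped Classical

namespace Pool.Agent.N181.P8

open Pool.Agent.N181.T3 Pool.Agent.N181.P3

section deg

variable {k M : Type} [Field k] [Field M] [Algebra k M] [FiniteDimensional k M]

theorem deg_dvd {ρ : k[X]} {g : M[X]} (hρ : Irreducible ρ) (hg : Irreducible g)
    (hd : g ∣ ρ.map (algebraMap k M)) : ρ.natDegree ∣ g.natDegree * Module.finrank k M := by
  haveI : Fact (Irreducible g) := ⟨hg⟩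
  haveI : FiniteDimensional M (AdjoinRoot g) := (AdjoinRoot.powerBasis hg.ne_zero).finite
  haveI : FiniteDimensional k (AdjoinRoot g) := Module.Finite.trans M _
  have h1 : Module.finrank M (AdjoinRoot g) = g.natDegree := by
    rw [(AdjoinRoot.powerBasis hg.ne_zero).finrank, AdjoinRoot.powerBasis_dim]
  have h2 := Module.finrank_mul_finrank k M (AdjoinRoot g)
  have h3 : aeval (AdjoinRoot.root g) ρ = 0 := by
    obtain ⟨c, hc⟩ := hd
    rw [← aeval_map_algebraMap M, hc, map_mul, AdjoinRoot.aeval_eq, AdjoinRoot.mk_self, zero_mul]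
  have h4 := minpoly.eq_of_irreducible hρ h3
  have h5 := minpoly.degree_dvd (K := k) (IsIntegral.of_finite k (AdjoinRoot.root g))
  rw [← h4, natDegree_mul_C (inv_ne_zero (leadingCoeff_ne_zero.2 hρ.ne_zero)), ← h2, h1] at h5
  rwa [mul_comm] at h5

/-- An irreducible polynomial of degree prime to the degree of the extension stays irreducible. -/
theorem irr_of_coprime {ρ : k[X]} (hρ : Irreducible ρ)
    (h : Nat.Coprime ρ.natDegree (Module.finrank k M)) : Irreducible (ρ.map (algebraMap k M)) := by
  have h0 : ρ.map (algebraMap k M) ≠ 0 := (Polynomial.map_ne_zero_iff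
    (algebraMap k M).injective).2 hρ.ne_zero
  have hu : ¬ IsUnit (ρ.map (algebraMap k M)) := by
    intro h1
    have h2 := natDegree_eq_zero_of_isUnit h1
    rw [natDegree_map] at h2
    exact absurd h2 (hρ.natDegree_pos).ne'
  obtain ⟨g, hg, hd⟩ := WfDvdMonoid.exists_irreducible_factor hu h0
  have h1 := Nat.Coprime.dvd_of_dvd_mul_right h (deg_dvd hρ hg hd)
  have h2 : (ρ.map (algebraMap k M)).natDegree ≤ g.natDegree := by
    rw [natDegree_map]
    exact Nat.le_of_dvd hg.natDegree_pos h1
  exact (associated_of_dvd_of_natDegree_le hd h0 h2).irreducible_iff.1 hg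

end deg

theorem stays_of_coprime {L L' : Type} [Field L] [Field L'] [Algebra L L'] {ρ : L[X]}
    (hρ : Irreducible ρ) (h : Nat.Coprime ρ.natDegree 6) : Stays L' ρ := by
  intro k1 hfin h3
  haveI := hfin
  apply irr_of_coprime hρ
  have hpos : 0 < Module.finrank L k1 := Module.finrank_pos
  have h6 : Module.finrank L k1 ∣ 6 := by
    obtain h | h | h : Module.finrank L k1 = 1 ∨ Module.finrank L k1 = 2 ∨
      Module.finrank L k1 = 3 := by omega
    all_goals rw [h]; norm_num
  exact Nat.Coprime.coprime_dvd_right h6 h

section ext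

variable {L L' : Type} [Field L] [Field L'] [Algebra L L']

/-- A finite extension of degree prime to `n` inside `L'`. -/
def Small (n : ℕ) (M : IntermediateField L L') : Prop :=
  FiniteDimensional L M ∧ Nat.Coprime n (Module.finrank L M)

theorem small_bot (n : ℕ) : Small n (⊥ : IntermediateField L L') :=
  ⟨inferInstance, by rw [IntermediateField.finrank_bot]; exact Nat.coprime_one_right n⟩

set_option synthInstance.maxHeartbeats 400000 in
/-- Adjoining a root of a polynomial of degree at most three. -/
theorem small_step {n : ℕ} (hn : Nat.Coprime n 6) {M : IntermediateField L L'} (hM : Small n M)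
    {x : L'} {G : M[X]} (hG : G ≠ 0) (hG3 : G.natDegree ≤ 3) (hx : aeval x G = 0) :
    ∃ M' : IntermediateField L L', M ≤ M' ∧ Small n M' ∧ x ∈ M' := by
  obtain ⟨h1, h2⟩ := hM
  have hint : IsIntegral M x := IsAlgebraic.isIntegral ⟨G, hG, hx⟩
  let E : IntermediateField M L' := IntermediateField.adjoin M {x}
  have hE : FiniteDimensional M E := IntermediateField.adjoin.finiteDimensional hint
  have h3 : Module.finrank M E ≤ 3 := by
    rw [IntermediateField.adjoin.finrank hint]
    exact (natDegree_le_of_dvd (minpoly.dvd M x hx) hG).trans hG3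
  have h4 : 0 < Module.finrank M E := Module.finrank_pos
  refine ⟨E.restrictScalars L, ?_, ⟨?_, ?_⟩, ?_⟩
  · intro y hy
    rw [IntermediateField.mem_restrictScalars]
    exact E.algebraMap_mem ⟨y, hy⟩
  · exact (Module.Finite.trans M E : Module.Finite L E)
  · have h5 : Module.finrank L (E.restrictScalars L) = Module.finrank L M * Module.finrank M E :=
      (Module.finrank_mul_finrank L M E).symm
    rw [h5]
    refine Nat.Coprime.mul_right h2 ?_
    have h6 : Module.finrank M E ∣ 6 := by
      obtain h | h | h : Module.finrank M E = 1 ∨ Module.finrank M E = 2 ∨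
        Module.finrank M E = 3 := by omega
      all_goals rw [h]; norm_num
    exact Nat.Coprime.coprime_dvd_right h6 hn
  · rw [IntermediateField.mem_restrictScalars]
    exact IntermediateField.mem_adjoin_simple_self M x

theorem small_set {n : ℕ} (hn : Nat.Coprime n 6) (S : Finset L')
    (hS : ∀ x ∈ S, ∃ G : L[X], G ≠ 0 ∧ G.natDegree ≤ 3 ∧ aeval x G = 0) :
    ∀ M : IntermediateField L L', Small n M →
      ∃ M' : IntermediateField L L', M ≤ M' ∧ Small n M' ∧ ∀ x ∈ S, x ∈ M' := by
  induction S using Finset.induction with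
  | empty => exact fun M hM => ⟨M, le_rfl, hM, fun x hx => absurd hx (Finset.notMem_empty x)⟩
  | insert y S hy ih =>
    intro M hM
    obtain ⟨M1, h1, h2, h3⟩ := ih (fun x hx => hS x (Finset.mem_insert_of_mem hx)) M hM
    obtain ⟨G, hG, hG3, hGx⟩ := hS y (Finset.mem_insert_self y S)
    obtain ⟨M2, h4, h5, h6⟩ := small_step hn h2 (x := y) (G := G.map (algebraMap L M1))
      ((Polynomial.map_ne_zero_iff (algebraMap L M1).injective).2 hG)
      (by rw [natDegree_map]; exact hG3) (by rw [aeval_map_algebraMap]; exact hGx)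
    refine ⟨M2, h1.trans h4, h5, fun x hx => ?_⟩
    rcases Finset.mem_insert.1 hx with rfl | hx
    · exact h6
    · exact h4 (h3 x hx)

/-- A polynomial of degree three has a root in a separably closed field of characteristic not three. -/
theorem cubic_root {M N : Type} [Field M] [Field N] [Algebra M N] [IsSepClosed N] (h3 : (3 : M) ≠ 0)
    {G : M[X]} (hG : G.natDegree = 3) : ∃ x : N, aeval x G = 0 := by
  have hG0 : G ≠ 0 := by
    rintro rfl
    rw [natDegree_zero] at hG
    omega
  by_cases hr : ∃ x : M, G.IsRoot x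
  · obtain ⟨x, hx⟩ := hr
    exact ⟨algebraMap M N x, by rw [aeval_algebraMap_apply, coe_aeval_eq_eval, IsRoot.def.1 hx,
      map_zero]⟩
  · push Not at hr
    have hirr := irreducible_of_degree_le_three_of_not_isRoot (p := G)
      (by rw [hG, Finset.mem_Icc]; omega) hr
    have hsep : G.Separable := by
      rw [separable_iff_derivative_ne_zero hirr]
      intro h0
      have h1 := congrArg (fun p => coeff p 2) h0
      simp only [coeff_derivative, coeff_zero] at h1
      have h2 : G.coeff 3 ≠ 0 := by
        rw [← hG]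
        exact leadingCoeff_ne_zero.2 hG0
      have h4 : (((2 : ℕ) : M) + 1) = 3 := by norm_num
      rw [h4] at h1
      exact (mul_ne_zero h2 h3) h1
    obtain ⟨x, hx⟩ := IsSepClosed.exists_aeval_eq_zero N G (by
      intro h
      have := natDegree_eq_of_degree_eq_some (n := 0) h
      omega) hsep
    exact ⟨x, hx⟩

end ext

end Pool.Agent.N181.P8
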