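import Pool.Agent.N181.P8.Cubic

/-!
The Tate conjecture descends from a finite extension of the constants.
-/

set_option autoImplicit false
set_option linter.all false

open Polynomial IsDedekindDomain WeierstrassCurve WeierstrassCurve.Affine
open scoped Classical

namespace Pool.Agent.N181.P8

open Pool.Agent.N181.T3 Pool.Agent.N181.P3
open Pool.Agent.TH115.GD (Pt act incl rs ak act_zero act_some act_inj act_act IsCoc LocTriv
  fixed_point exists_restrict rs_act_incl Preserves exists_conj IsTower LocallyTrivial Sep Comp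
  CompInf wFin lt_subT cob_isCoc sepKΩ preserves)

section stmt

variable {K F : Type} [Field K] [Field F] [Algebra K F]

/-- The Tate conjecture at the prime `l` for the elliptic surface with generic fibre `W` over
`K = k(t)` in its rational form: the classes in the `l`-adic Selmer group `V_l Sel(W / F)`, `F = k'(t)`,
which are fixed by the Galois group come from `W(K) ⊗ ℚ_l`. If `c` is a cocycle of `Gal(Sep F / F)` with
values in `T_l W` which is everywhere locally trivial, and the class of `c` in `V_l` is fixed by the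
Galois group of `K`, then there is `N > 0` such that for every `n` there are a point `P` of `W(K)` and
a point `R` with `l ^ n R = P` such that `N c n σ = σ R - R` for all `σ`. -/
def TateQ (l : ℕ) (k' : Type) [Field k'] [Algebra k'[X] F] [IsFractionRing k'[X] F]
    (W : WeierstrassCurve K) : Prop :=
  ∀ c : ℕ → (Sep F ≃ₐ[F] Sep F) → Pt W (Sep F), IsTCL W l c →
    (∀ n, LocallyTrivial k' W (c n)) → IsInvL W l c →
    ∃ N : ℕ, 0 < N ∧ ∀ n, ∃ (P : Pt W K) (R : Pt W (Sep F)),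
      l ^ n • R = act W (incl K K (Sep F)) P ∧ ∀ σ, N • c n σ = act W (rs K σ) R - R

end stmt

section cast

variable {Ω : Type} [Field Ω]

/-- The identification of the points of equal curves. -/
noncomputable def castP {V V' : Affine Ω} (h : V = V') : V.Point ≃+ V'.Point := by
  subst h
  exact AddEquiv.refl _

theorem castP_some {V V' : Affine Ω} (h : V = V') {x y : Ω} (hn : V.Nonsingular x y) :
    castP h (Point.some x y hn) = Point.some x y (h ▸ hn) := by
  subst h
  rfl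

end cast

section tr

variable {K K₁ Ω Ω' : Type} [Field K] [Field K₁] [Field Ω] [Field Ω'] [Algebra K K₁]
  [Algebra K Ω] [Algebra K₁ Ω] [IsScalarTower K K₁ Ω]
  [Algebra K Ω'] [Algebra K₁ Ω'] [IsScalarTower K K₁ Ω']

theorem base_eq (W : WeierstrassCurve K) (Ω : Type) [Field Ω] [Algebra K Ω] [Algebra K₁ Ω]
    [IsScalarTower K K₁ Ω] :
    (W.baseChange Ω).toAffine = ((W.map (algebraMap K K₁)).baseChange Ω).toAffine := by
  show W.map (algebraMap K Ω) = (W.map (algebraMap K K₁)).map (algebraMap K₁ Ω)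
  rw [WeierstrassCurve.map_map, IsScalarTower.algebraMap_eq K K₁ Ω]

/-- The points of `W` over an extension of `K₁` are the points of the base change of `W` to `K₁`. -/
noncomputable def TT (W : WeierstrassCurve K) (K₁ Ω : Type) [Field K₁] [Field Ω] [Algebra K K₁] [Algebra K Ω]
    [Algebra K₁ Ω] [IsScalarTower K K₁ Ω] : Pt W Ω ≃+ Pt (W.map (algebraMap K K₁)) Ω :=
  castP (base_eq W Ω)

theorem TT_act (W : WeierstrassCurve K) (φ : Ω →ₐ[K₁] Ω') (P : Pt W Ω) :
    act (W.map (algebraMap K K₁)) φ (TT W K₁ Ω P) = TT W K₁ Ω' (act W (φ.restrictScalars K) P) := by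
  rcases P with _ | ⟨x, y, hxy⟩
  · have h1 : (TT W K₁ Ω) (Point.zero : Pt W Ω) = 0 := map_zero (TT W K₁ Ω)
    have h2 : act W (φ.restrictScalars K) (Point.zero : Pt W Ω) = 0 := map_zero _
    rw [h1, h2, map_zero, map_zero]
  · obtain ⟨h, e⟩ := act_some W (φ.restrictScalars K) hxy
    rw [e]
    unfold TT
    rw [castP_some, castP_some]
    rfl

end tr

section desc

variable {k' K K₁ F : Type} [Field k'] [Field K] [Field K₁] [Field F] [Algebra K F] [Algebra K₁ F]
  [Algebra K K₁] [IsScalarTower K K₁ F] [Algebra k'[X] F] [IsFractionRing k'[X] F]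
  {W : WeierstrassCurve K} {l : ℕ}

theorem tml_cast {Q : ℕ → Pt W (Sep F)} (h : IsTML W l Q) :
    IsTML (W.map (algebraMap K K₁)) l (fun n => TT W K₁ (Sep F) (Q n)) :=
  ⟨by rw [h.zero, map_zero], fun n => by rw [← map_nsmul, h.mul]⟩

theorem tcl_cast {c : ℕ → (Sep F ≃ₐ[F] Sep F) → Pt W (Sep F)} (h : IsTCL W l c) :
    IsTCL (W.map (algebraMap K K₁)) l (fun n σ => TT W K₁ (Sep F) (c n σ)) := by
  refine ⟨fun n => ⟨(h.coc n).lc.comp _, fun σ τ => ?_⟩, fun σ => ?_, fun n σ => ?_⟩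
  · rw [(h.coc n).mul, map_add, TT_act]
    rfl
  · rw [h.zero, map_zero]
  · rw [← map_nsmul, h.mul]

theorem loc_cast {L Ω' : Type} [Field L] [Field Ω'] [Algebra K L] [Algebra L Ω'] [Algebra K Ω']
    [Algebra F Ω'] [IsScalarTower K L Ω'] [IsScalarTower K F Ω'] [Algebra K₁ L] [Algebra K₁ Ω']
    [IsScalarTower K₁ L Ω'] [IsScalarTower K₁ F Ω'] [IsScalarTower K K₁ Ω']
    {f : (Sep F ≃ₐ[F] Sep F) → Pt W (Sep F)} (h : LocTriv W L Ω' f) :
    LocTriv (W.map (algebraMap K K₁)) L Ω' (fun σ => TT W K₁ (Sep F) (f σ)) := by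
  obtain ⟨ι, P, h⟩ := h
  refine ⟨ι, TT W K₁ Ω' P, fun τ σ hτ => ?_⟩
  rw [TT_act, TT_act, ← map_sub]
  have h1 := h τ σ hτ
  exact congrArg _ h1

theorem lt_cast {f : (Sep F ≃ₐ[F] Sep F) → Pt W (Sep F)} (h : LocallyTrivial k' W f) :
    LocallyTrivial k' (W.map (algebraMap K K₁)) (fun σ => TT W K₁ (Sep F) (f σ)) := by
  refine ⟨fun v => ?_, ?_⟩
  · haveI : IsScalarTower K K₁ (Comp k'[X] F v) := IsScalarTower.of_algebraMap_eq fun x => by
      show algebraMap F (Comp k'[X] F v) (algebraMap K F x) =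
        algebraMap F (Comp k'[X] F v) (algebraMap K₁ F (algebraMap K K₁ x))
      rw [← IsScalarTower.algebraMap_apply K K₁ F]
    exact loc_cast (h.1 v)
  · haveI : IsScalarTower K K₁ (CompInf k' F) := IsScalarTower.of_algebraMap_eq fun x => by
      show algebraMap F (CompInf k' F) (algebraMap K F x) =
        algebraMap F (CompInf k' F) (algebraMap K₁ F (algebraMap K K₁ x))
      rw [← IsScalarTower.algebraMap_apply K K₁ F]
    exact loc_cast h.2

theorem inv_cast {c : ℕ → (Sep F ≃ₐ[F] Sep F) → Pt W (Sep F)} (h : IsInvL W l c) :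
    IsInvL (W.map (algebraMap K K₁)) l (fun n σ => TT W K₁ (Sep F) (c n σ)) := by
  intro τ
  obtain ⟨m, Q, hQ, e⟩ := h (τ.restrictScalars K)
  refine ⟨m, fun n => TT W K₁ (Sep F) (Q n), tml_cast hQ, fun n σ σ' hσ => ?_⟩
  rw [TT_act, TT_act, ← map_sub, ← map_sub, ← map_nsmul]
  exact congrArg _ (e n σ σ' hσ)

/-- The automorphisms over `K` which fix `K₁`. -/
def fixK (K K₁ F : Type) [Field K] [Field K₁] [Field F] [Algebra K F] [Algebra K₁ F]
    [Algebra K K₁] [IsScalarTower K K₁ F] : Subgroup (Sep F ≃ₐ[K] Sep F) where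
  carrier := {τ | ∀ x : K₁, τ (algebraMap K₁ (Sep F) x) = algebraMap K₁ (Sep F) x}
  mul_mem' := by
    intro σ τ h1 h2 x
    show σ (τ _) = _
    rw [h2, h1]
  one_mem' := fun x => rfl
  inv_mem' := by
    intro τ h x
    show τ.symm _ = _
    rw [AlgEquiv.symm_apply_eq, h]

theorem fixK_finite [FiniteDimensional K K₁] : Finite ((Sep F ≃ₐ[K] Sep F) ⧸ fixK K K₁ F) := by
  let f : ((Sep F ≃ₐ[K] Sep F) ⧸ fixK K K₁ F) → (K₁ →ₐ[K] Sep F) := fun q =>
    (ak q.out).comp (IsScalarTower.toAlgHom K K₁ (Sep F))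
  haveI : Finite (K₁ →ₐ[K] Sep F) := inferInstance
  refine Finite.of_injective f fun q q' h => ?_
  rw [← QuotientGroup.out_eq' q, ← QuotientGroup.out_eq' q', QuotientGroup.eq]
  intro x
  have h1 : q.out (algebraMap K₁ (Sep F) x) = q'.out (algebraMap K₁ (Sep F) x) :=
    DFunLike.congr_fun h x
  show (q.out)⁻¹ (q'.out (algebraMap K₁ (Sep F) x)) = _
  rw [← h1]
  exact (q.out).symm_apply_apply _

set_option maxHeartbeats 4000000 in
/-- **Descent.** -/
theorem tate_desc [IsGalois K (Sep F)] [FiniteDimensional K K₁] (hpres : Preserves K F (Sep F))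
    (h : TateAt (F := F) l k' (W.map (algebraMap K K₁))) : TateQ (F := F) l k' W := by
  intro c hc hl hi
  haveI := fixK_finite (K := K) (K₁ := K₁) (F := F)
  letI := Fintype.ofFinite ((Sep F ≃ₐ[K] Sep F) ⧸ fixK K K₁ F)
  choose m Q hQ hm using hi
  choose cj hcj using exists_conj hpres
  set M := ∑ q : (Sep F ≃ₐ[K] Sep F) ⧸ fixK K K₁ F, m q.out with hM
  have hmM : ∀ q : (Sep F ≃ₐ[K] Sep F) ⧸ fixK K K₁ F, m q.out ≤ M := fun q =>
    Finset.single_le_sum (f := fun q : (Sep F ≃ₐ[K] Sep F) ⧸ fixK K K₁ F => m q.out)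
      (fun _ _ => Nat.zero_le _) (Finset.mem_univ q)
  have hQpow : ∀ (τ : Sep F ≃ₐ[K] Sep F) (n : ℕ), l ^ n • Q τ n = 0 := by
    intro τ n
    induction n with
    | zero => rw [(hQ τ).zero, smul_zero]
    | succ n ih => rw [pow_succ, mul_smul, (hQ τ).mul, ih]
  by_cases hl0 : l = 0
  · subst hl0
    refine ⟨1, one_pos, fun n => ⟨0, 0, by rw [smul_zero, map_zero], fun σ => ?_⟩⟩
    rw [map_zero, sub_zero, one_smul]
    rw [← hc.mul n σ, zero_smul]
  refine ⟨Fintype.card ((Sep F ≃ₐ[K] Sep F) ⧸ fixK K K₁ F) * l ^ M,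
    Nat.mul_pos Fintype.card_pos (pow_pos (Nat.pos_of_ne_zero hl0) M), fun n => ?_⟩
  obtain ⟨P₁, R₁, e1, e2⟩ := h _ (tcl_cast hc) (fun n => lt_cast (hl n))
    (inv_cast (K₁ := K₁) (fun τ => ⟨m τ, Q τ, hQ τ, hm τ⟩)) n
  set R : Pt W (Sep F) := (TT W K₁ (Sep F)).symm R₁ with hR
  have hR' : TT W K₁ (Sep F) R = R₁ := (TT W K₁ (Sep F)).apply_symm_apply R₁
  have hcR : ∀ σ, c n σ = act W (rs K σ) R - R := by
    intro σ
    apply (TT W K₁ (Sep F)).injective
    rw [map_sub, hR']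
    have h1 := e2 σ
    have h2 : act (W.map (algebraMap K K₁)) (rs K₁ σ) (TT W K₁ (Sep F) R) =
      TT W K₁ (Sep F) (act W (rs K σ) R) := TT_act W (rs K₁ σ) R
    rw [← h2, hR']
    exact h1
  set X := l ^ n • R with hX
  -- `X` is fixed by the subgroup
  have hXfix : ∀ τ ∈ fixK K K₁ F, act W (ak τ) X = X := by
    intro τ hτ
    let τ₁ : Sep F ≃ₐ[K₁] Sep F := AlgEquiv.ofRingEquiv (f := τ.toRingEquiv) hτ
    apply (TT W K₁ (Sep F)).injective
    have h2 : act (W.map (algebraMap K K₁)) (ak τ₁) (TT W K₁ (Sep F) X) =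
      TT W K₁ (Sep F) (act W (ak τ) X) := TT_act W (ak τ₁) X
    rw [← h2]
    have h3 : TT W K₁ (Sep F) X = act (W.map (algebraMap K K₁)) (incl K₁ K₁ (Sep F)) P₁ := by
      rw [hX, map_nsmul, hR', e1]
    have h4 : (ak τ₁).comp (incl K₁ K₁ (Sep F)) = incl K₁ K₁ (Sep F) :=
      AlgHom.ext fun x => τ₁.commutes x
    rw [h3, act_act, h4]
  have hXout : ∀ τ : Sep F ≃ₐ[K] Sep F,
      act W (ak (QuotientGroup.mk τ : (Sep F ≃ₐ[K] Sep F) ⧸ fixK K K₁ F).out) X =
        act W (ak τ) X := by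
    intro τ
    have h1 : τ⁻¹ * (QuotientGroup.mk τ : (Sep F ≃ₐ[K] Sep F) ⧸ fixK K K₁ F).out ∈ fixK K K₁ F :=
      QuotientGroup.eq.1 (QuotientGroup.out_eq' _).symm
    have h2 := hXfix _ h1
    have h3 : (ak τ).comp (ak (τ⁻¹ * (QuotientGroup.mk τ :
        (Sep F ≃ₐ[K] Sep F) ⧸ fixK K K₁ F).out)) =
        ak (QuotientGroup.mk τ : (Sep F ≃ₐ[K] Sep F) ⧸ fixK K K₁ F).out :=
      AlgHom.ext fun x => by
        show τ (τ.symm _) = _
        rw [AlgEquiv.apply_symm_apply]
        rfl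
    rw [← h3, ← act_act, h2]
  set P' := ∑ q : (Sep F ≃ₐ[K] Sep F) ⧸ fixK K K₁ F, act W (ak q.out) X with hP'
  have hP'fix : ∀ g : Sep F ≃ₐ[K] Sep F, act W (ak g) P' = P' := by
    intro g
    rw [hP', map_sum]
    refine Fintype.sum_equiv (MulAction.toPerm g) _ _ fun q => ?_
    show act W (ak g) (act W (ak q.out) X) = act W (ak (g • q).out) X
    have h1 : g • q = QuotientGroup.mk (g * q.out) := by
      conv_lhs => rw [← QuotientGroup.out_eq' q]
      rfl
    rw [h1, hXout, act_act]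
    rfl
  set R' := ∑ q : (Sep F ≃ₐ[K] Sep F) ⧸ fixK K K₁ F, act W (ak q.out) R with hR'def
  have hRP : l ^ n • R' = P' := by
    rw [hR'def, hP', Finset.smul_sum]
    refine Finset.sum_congr rfl fun q _ => ?_
    rw [hX, map_nsmul]
  set Q' := ∑ q : (Sep F ≃ₐ[K] Sep F) ⧸ fixK K K₁ F, l ^ (M - m q.out) • Q q.out n with hQ'
  have hQ'0 : l ^ n • Q' = 0 := by
    rw [hQ', Finset.smul_sum]
    refine Finset.sum_eq_zero fun q _ => ?_
    rw [smul_smul, mul_comm, mul_smul, hQpow, smul_zero]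
  obtain ⟨P, hP⟩ := fixed_point (K := K) (F := K) W (l ^ M • P') fun τ => by
    rw [map_nsmul]
    exact congrArg _ (hP'fix τ)
  refine ⟨P, l ^ M • R' - Q', ?_, fun σ => ?_⟩
  · rw [smul_sub, hQ'0, sub_zero, hP, smul_smul, mul_comm, mul_smul, hRP]
  · have h1 : ∀ q : (Sep F ≃ₐ[K] Sep F) ⧸ fixK K K₁ F,
        l ^ M • (act W (rs K σ) (act W (ak q.out) R) - act W (ak q.out) R) =
          l ^ M • c n σ + (act W (rs K σ) (l ^ (M - m q.out) • Q q.out n) -
            l ^ (M - m q.out) • Q q.out n) := by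
      intro q
      have h2 := hcj q.out σ
      have hcomp : act W (rs K σ) (act W (ak q.out) R) =
          act W (ak q.out) (act W (rs K (cj q.out σ)) R) := by
        have h5 : (ak q.out).comp (rs K (cj q.out σ)) = (rs K σ).comp (ak q.out) :=
          AlgHom.ext fun x => h2 x
        rw [act_act, act_act, h5]
      have h3 := hm q.out n σ (cj q.out σ) h2
      have h4 : l ^ M = l ^ (M - m q.out) * l ^ (m q.out) := by
        rw [← pow_add, Nat.sub_add_cancel (hmM q)]
      rw [hcomp, ← map_sub, ← hcR (cj q.out σ), map_nsmul, ← smul_sub, ← h3, smul_smul, ← h4,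
        smul_sub]
      abel
    have h2 := Finset.sum_congr (rfl : (Finset.univ : Finset ((Sep F ≃ₐ[K] Sep F) ⧸
      fixK K K₁ F)) = Finset.univ) fun q _ => h1 q
    rw [Finset.sum_add_distrib, Finset.sum_const, Finset.card_univ, Finset.sum_sub_distrib,
      ← map_sum, ← hQ', ← Finset.smul_sum, Finset.sum_sub_distrib, ← map_sum, ← hR'def] at h2
    rw [map_sub, map_nsmul, mul_smul]
    rw [smul_sub] at h2
    rw [sub_sub_sub_comm, h2]
    abel

end desc

end Pool.Agent.N181.P8
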