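import Pool.Agent.N181.P8.Setup

/-!
The index of the pulled back points.
-/

set_option autoImplicit false
set_option linter.all false

open Polynomial IsDedekindDomain WeierstrassCurve WeierstrassCurve.Affine
open scoped Classical

namespace Pool.Agent.N181.P8

open Pool.Agent.N181.T3 Pool.Agent.N181.P3
open Pool.Agent.X243.Gen (pb pb_sum pb_mul pb_C pb_one pb_pow pb_lin pb_map pb_frac pb_ne exists_psi
  natDegree_pb root_of_prime form_cop)
open Pool.Agent.TH115.GD (Pt act incl rs ak act_zero act_some act_inj act_act IsTower Sep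
  splits_of_sep sepKΩ preserves Preserves)

theorem fg_of_inj {A B : Type} [AddCommGroup A] [AddCommGroup B] (f : A →+ B)
    (hf : Function.Injective f) (h : AddGroup.FG B) : AddGroup.FG A := by
  haveI : Module.Finite ℤ B := Module.Finite.iff_addGroup_fg.2 h
  haveI : Module.Finite ℤ A := Module.Finite.of_injective f.toIntLinearMap hf
  exact Module.Finite.iff_addGroup_fg.1 inferInstance

/-- The base change of `crv3 a b`. -/
theorem crv_cast {K K₁ Ω : Type} [Field K] [Field K₁] [Field Ω] [Algebra K K₁] [Algebra K Ω]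
    [Algebra K₁ Ω] [IsScalarTower K K₁ Ω] (a b : K) :
    ((crv3 a b).baseChange Ω).toAffine =
      ((crv3 (algebraMap K K₁ a) (algebraMap K K₁ b)).baseChange Ω).toAffine := by
  ext
  · exact IsScalarTower.algebraMap_apply K K₁ Ω _
  · show algebraMap K Ω 0 = algebraMap K₁ Ω 0
    rw [map_zero, map_zero]
  · exact IsScalarTower.algebraMap_apply K K₁ Ω _
  · show algebraMap K Ω 0 = algebraMap K₁ Ω 0
    rw [map_zero, map_zero]
  · show algebraMap K Ω 0 = algebraMap K₁ Ω 0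
    rw [map_zero, map_zero]

section fin

variable {L M : Type} [Field L] [Field M] [Algebra L M] [FiniteDimensional L M]
  {K₀ K K₁ F : Type} [Field K₀] [Field K] [Field K₁] [Field F] [Algebra L[X] K₀]
  [Algebra L[X] K] [Algebra M[X] K₁] [IsFractionRing L[X] K₀]
  [IsFractionRing L[X] K] [IsFractionRing M[X] K₁] [Algebra K K₁] [Algebra K F] [Algebra K₁ F]
  [IsScalarTower K K₁ F]

theorem pts_final (h3 : (3 : L) ≠ 0)
    (hKK : ∀ p : L[X], algebraMap K K₁ (algebraMap L[X] K p) =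
      algebraMap M[X] K₁ (p.map (algebraMap L M)))
    {q r : L[X]} (hr : r ≠ 0)
    (hne : ∀ g : M[X], g ≠ 0 →
      pb (q.map (algebraMap L M)) (r.map (algebraMap L M)) g ≠ 0)
    {ψ : K₀ →+* K} {ψ₁ : K₁ →+* K₁}
    (hψ : ∀ g : L[X], algebraMap L[X] K (pb q r (g.map (RingHom.id L))) =
      (algebraMap L[X] K r) ^ g.natDegree * ψ (algebraMap L[X] K₀ g))
    (hψ₁ : ∀ g : M[X], algebraMap M[X] K₁ (pb (q.map (algebraMap L M)) (r.map (algebraMap L M))
      (g.map (RingHom.id M))) = (algebraMap M[X] K₁ (r.map (algebraMap L M))) ^ g.natDegree *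
        ψ₁ (algebraMap M[X] K₁ g))
    {a₀ b₀ : L[X]} (hb₀ : b₀ ≠ 0) (hd₀ : a₀ ^ 3 - 27 * b₀ ≠ 0) {aK bK : K}
    {ι : Pt (crv3 (algebraMap L[X] K₀ a₀) (algebraMap L[X] K₀ b₀)) K₀ →+ Pt (crv3 aK bK) K}
    (hι : ∀ (x y : K₀) (hn : ((crv3 (algebraMap L[X] K₀ a₀)
        (algebraMap L[X] K₀ b₀)).baseChange K₀).toAffine.Nonsingular x y),
        ∃ hn' : ((crv3 aK bK).baseChange K).toAffine.Nonsingular
          ((algebraMap L[X] K r) ^ 2 * ψ x) ((algebraMap L[X] K r) ^ 3 * ψ y),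
          ι (Point.some x y hn) = Point.some _ _ hn')
    {ι₁ : Pt (crv3 (algebraMap M[X] K₁ (a₀.map (algebraMap L M)))
      (algebraMap M[X] K₁ (b₀.map (algebraMap L M)))) K₁ →+
      Pt (crv3 (algebraMap K K₁ aK) (algebraMap K K₁ bK)) K₁}
    (hι₁ : ∀ (x y : K₁) (hn : ((crv3 (algebraMap M[X] K₁ (a₀.map (algebraMap L M)))
      (algebraMap M[X] K₁ (b₀.map (algebraMap L M)))).baseChange K₁).toAffine.Nonsingular x y),
        ∃ hn' : ((crv3 (algebraMap K K₁ aK)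
          (algebraMap K K₁ bK)).baseChange K₁).toAffine.Nonsingular
          (((algebraMap M[X] K₁ (r.map (algebraMap L M))) ^ 1) ^ 2 * ψ₁ x)
          (((algebraMap M[X] K₁ (r.map (algebraMap L M))) ^ 1) ^ 3 * ψ₁ y),
          ι₁ (Point.some x y hn) = Point.some _ _ hn')
    (hP₁ : ∀ P : Pt (crv3 (algebraMap K K₁ aK) (algebraMap K K₁ bK)) K₁, ∃ (Q : Pt (crv3
      (algebraMap K K₁ aK) (algebraMap K K₁ bK)) K₁) (P₀ : Pt (crv3 (algebraMap M[X] K₁
        (a₀.map (algebraMap L M))) (algebraMap M[X] K₁ (b₀.map (algebraMap L M)))) K₁),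
        P = 3 • Q + ι₁ P₀)
    (hfg : AddGroup.FG (Pt (crv3 aK bK) F)) :
    ∃ N : ℕ, ¬ 3 ∣ N ∧ ∀ P : Pt (crv3 aK bK) K,
      ∃ P₀ : Pt (crv3 (algebraMap L[X] K₀ a₀) (algebraMap L[X] K₀ b₀)) K₀, N • P = ι P₀ := by
  obtain ⟨j₀, hj₀⟩ := exists_lift (K := K₀) (K₁ := K₁) (algebraMap L M)
  have hr0' : algebraMap L[X] K r ≠ 0 := by
    rw [Ne, map_eq_zero_iff _ (IsFractionRing.injective L[X] K)]
    exact hr
  have hρ₁ : (algebraMap M[X] K₁ (r.map (algebraMap L M))) ^ 1 =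
      algebraMap K K₁ (algebraMap L[X] K r) := by
    rw [pow_one, hKK]
  -- the maps on the points
  let W₁ := crv3 (algebraMap K K₁ aK) (algebraMap K K₁ bK)
  let θ : Pt W₁ K₁ →+ Pt (crv3 aK bK) F :=
    (castP (crv_cast (K₁ := K₁) (Ω := F) aK bK).symm).toAddMonoidHom.comp
      (act W₁ (Algebra.ofId K₁ F))
  have hθ : Function.Injective θ := (castP _).injective.comp (act_inj W₁ (Algebra.ofId K₁ F))
  have hfg₁ : AddGroup.FG (Pt W₁ K₁) := fg_of_inj θ hθ hfg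
  obtain ⟨N, hN, hN'⟩ := three_exponent ι₁.range hfg₁ fun P => by
    obtain ⟨Q, P₀, e⟩ := hP₁ P
    exact ⟨Q, ι₁ P₀, ⟨P₀, rfl⟩, e⟩
  refine ⟨N, hN, fun P => ?_⟩
  let η : Pt (crv3 aK bK) K →+ Pt W₁ K₁ :=
    (castP (crv_cast (K₁ := K₁) (Ω := K₁) aK bK)).toAddMonoidHom.comp
      (act (crv3 aK bK) (Algebra.ofId K K₁))
  obtain ⟨P₀₁, hP₀₁⟩ := hN' (η P)
  rw [← map_nsmul] at hP₀₁
  obtain ⟨n1, n2, n3⟩ := ne3 (K := K₀) h3 hb₀ hd₀
  obtain ⟨P₀, e⟩ := pts_desc (L := L) (K₀ := K₀) (K₀₁ := K₁) h3 hKK hr hne hj₀ hψ hψ₁ n2 n3 hr0' hι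
    (hj₀ a₀).symm (hj₀ b₀).symm hρ₁ hι₁ (N • P) (η (N • P)) (by
      have hη : ∀ T : Pt (crv3 aK bK) K, (T = 0 ∧ η T = 0) ∨ ∃ (x y : K)
          (h : ((crv3 aK bK).baseChange K).toAffine.Nonsingular x y)
          (h' : (W₁.baseChange K₁).toAffine.Nonsingular (algebraMap K K₁ x)
            (algebraMap K K₁ y)), T = Point.some x y h ∧ η T = Point.some _ _ h' := by
        intro T
        rcases T with _ | ⟨x, y, hn⟩
        · exact Or.inl ⟨rfl, map_zero η⟩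
        · right
          obtain ⟨h, e⟩ := act_some (crv3 aK bK) (Algebra.ofId K K₁) hn
          have e2 : η (Point.some x y hn) = castP (crv_cast (K₁ := K₁) (Ω := K₁) aK bK)
            (act (crv3 aK bK) (Algebra.ofId K K₁) (Point.some x y hn)) := rfl
          rw [e, castP_some] at e2
          exact ⟨x, y, hn, _, rfl, e2⟩
      exact hη (N • P)) P₀₁ hP₀₁
  exact ⟨P₀, e.symm⟩

end fin

end Pool.Agent.N181.P8
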