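import Pool.Agent.N181.P8.Desc

/-!
The field `M(t)` for a finite extension `M` of `L`.
-/

set_option autoImplicit false
set_option linter.all false

open Polynomial
open scoped Classical

namespace Pool.Agent.N181.P8

open Pool.Agent.N181.T3 Pool.Agent.N181.P3
open Pool.Agent.X243.Gen (pb pb_sum pb_mul pb_C pb_one pb_pow pb_lin pb_map pb_frac pb_ne exists_psi
  natDegree_pb root_of_prime form_cop)
open Pool.Agent.TH115.GD (IsTower)

section mid

variable {L M : Type} [Field L] [Field M] [Algebra L M] [FiniteDimensional L M]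

theorem exists_mult {g : M[X]} (hg : g ≠ 0) : ∃ h : L[X], h ≠ 0 ∧ g ∣ h.map (algebraMap L M) := by
  revert hg
  refine WfDvdMonoid.induction_on_irreducible g ?_ ?_ ?_
  · intro h
    exact absurd rfl h
  · intro u hu _
    exact ⟨1, one_ne_zero, by rw [Polynomial.map_one]; exact hu.dvd⟩
  · intro g' p hg' hp ih _
    obtain ⟨h, h0, h1⟩ := ih hg'
    haveI : Fact (Irreducible p) := ⟨hp⟩
    haveI : FiniteDimensional M (AdjoinRoot p) := (AdjoinRoot.powerBasis hp.ne_zero).finite
    haveI : FiniteDimensional L (AdjoinRoot p) := Module.Finite.trans M _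
    have hint : IsIntegral L (AdjoinRoot.root p) := IsIntegral.of_finite L _
    refine ⟨minpoly L (AdjoinRoot.root p) * h, mul_ne_zero (minpoly.ne_zero hint) h0, ?_⟩
    rw [Polynomial.map_mul]
    refine mul_dvd_mul ?_ h1
    rw [← AdjoinRoot.mk_eq_zero, ← AdjoinRoot.aeval_eq, aeval_map_algebraMap]
    exact minpoly.aeval _ _

variable {K K₁ : Type} [Field K] [Field K₁] [Algebra L[X] K] [Algebra M[X] K₁]
  [IsFractionRing L[X] K] [IsFractionRing M[X] K₁]

variable (M) in
theorem exists_div (x : K₁) : ∃ (g : M[X]) (h : L[X]), h ≠ 0 ∧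
    x = algebraMap M[X] K₁ g / algebraMap M[X] K₁ (h.map (algebraMap L M)) := by
  obtain ⟨g, d, hd, rfl⟩ := IsFractionRing.div_surjective (A := M[X]) x
  have hd0 := nonZeroDivisors.ne_zero hd
  obtain ⟨h, h0, c, hc⟩ := exists_mult (L := L) hd0
  have hc0 : c ≠ 0 := by
    rintro rfl
    rw [mul_zero] at hc
    exact h0 ((Polynomial.map_eq_zero_iff (algebraMap L M).injective).1 hc)
  refine ⟨g * c, h, h0, ?_⟩
  have h1 : algebraMap M[X] K₁ d ≠ 0 := by simpa using hd0
  have h2 : algebraMap M[X] K₁ c ≠ 0 := by simpa using hc0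
  rw [hc, map_mul, map_mul]
  field_simp

variable [Algebra K K₁] (hKK : ∀ p : L[X], algebraMap K K₁ (algebraMap L[X] K p) =
  algebraMap M[X] K₁ (p.map (algebraMap L M)))

include hKK in
theorem finite_mid : FiniteDimensional K K₁ := by
  let B := Module.finBasis L M
  let S := Submodule.span K (Set.range fun i => algebraMap M[X] K₁ (C (B i)))
  have hC : ∀ m : M, algebraMap M[X] K₁ (C m) ∈ S := by
    intro m
    have h1 : algebraMap M[X] K₁ (C m) = ∑ i, (algebraMap L[X] K (C (B.repr m i))) •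
        algebraMap M[X] K₁ (C (B i)) := by
      conv_lhs => rw [← B.sum_repr m]
      rw [map_sum, map_sum]
      refine Finset.sum_congr rfl fun i _ => ?_
      rw [Algebra.smul_def (algebraMap L[X] K (C (B.repr m i))), hKK, map_C, ← map_mul, ← C_mul,
        Algebra.smul_def]
    rw [h1]
    exact S.sum_mem fun i _ => S.smul_mem _ (Submodule.subset_span ⟨i, rfl⟩)
  have hg : ∀ g : M[X], algebraMap M[X] K₁ g ∈ S := by
    intro g
    induction g using Polynomial.induction_on' with
    | add p q hp hq => rw [map_add]; exact S.add_mem hp hq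
    | monomial n m =>
      have h1 : algebraMap M[X] K₁ (monomial n m) = (algebraMap L[X] K (X ^ n)) •
          algebraMap M[X] K₁ (C m) := by
        rw [Algebra.smul_def, hKK, Polynomial.map_pow, map_X, ← map_mul, ← C_mul_X_pow_eq_monomial,
          mul_comm]
      rw [h1]
      exact S.smul_mem _ (hC m)
  refine ⟨⟨Finset.univ.image fun i => algebraMap M[X] K₁ (C (B i)), ?_⟩⟩
  rw [Finset.coe_image, Finset.coe_univ, Set.image_univ, eq_top_iff]
  intro x _
  obtain ⟨g, h, h0, rfl⟩ := exists_div (L := L) M x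
  have h1 : algebraMap M[X] K₁ g / algebraMap M[X] K₁ (h.map (algebraMap L M)) =
      (algebraMap L[X] K h)⁻¹ • algebraMap M[X] K₁ g := by
    rw [Algebra.smul_def, map_inv₀, hKK, div_eq_inv_mul]
  rw [h1]
  exact S.smul_mem _ (hg g)

/-- Descent of the coefficients. -/
theorem desc_poly {lam : M →ₗ[L] L} (hlam : ∀ c : L, lam (algebraMap L M c) = c) {N : ℕ}
    {q r v w : L[X]} {g : M[X]}
    (e : (∑ i ∈ Finset.range (N + 1), C (g.coeff i) * (q.map (algebraMap L M)) ^ i *
      (r.map (algebraMap L M)) ^ (N - i)) * v.map (algebraMap L M) = w.map (algebraMap L M)) :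
    (∑ i ∈ Finset.range (N + 1), C (lam (g.coeff i)) * q ^ i * r ^ (N - i)) * v = w := by
  ext j
  have h1 := congrArg (fun p : M[X] => lam (p.coeff j)) e
  simp only [coeff_map, hlam] at h1
  rw [← h1, Finset.sum_mul, Finset.sum_mul, finset_sum_coeff, finset_sum_coeff, map_sum]
  refine Finset.sum_congr rfl fun i _ => ?_
  have e1 : C (g.coeff i) * (q.map (algebraMap L M)) ^ i * (r.map (algebraMap L M)) ^ (N - i) *
      v.map (algebraMap L M) = C (g.coeff i) * ((q ^ i * r ^ (N - i) * v).map (algebraMap L M)) := by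
    rw [Polynomial.map_mul, Polynomial.map_mul, Polynomial.map_pow, Polynomial.map_pow]
    ring
  have e2 : C (lam (g.coeff i)) * q ^ i * r ^ (N - i) * v =
      C (lam (g.coeff i)) * (q ^ i * r ^ (N - i) * v) := by ring
  rw [e1, e2, coeff_C_mul, coeff_C_mul, coeff_map, mul_comm (g.coeff i), ← Algebra.smul_def,
    map_smul, smul_eq_mul, mul_comm]

/-- A function of `s` over `M` whose pullback is defined over `L` is defined over `L`. -/
theorem desc_fun {K₀ K₀₁ : Type} [Field K₀] [Field K₀₁] [Algebra L[X] K₀] [Algebra M[X] K₀₁]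
    [IsFractionRing L[X] K₀] [IsFractionRing M[X] K₀₁] {q r : L[X]}
    (hne : ∀ g : M[X], g ≠ 0 →
      pb (q.map (algebraMap L M)) (r.map (algebraMap L M)) g ≠ 0) (hr : r ≠ 0)
    {ψ₁ : K₀₁ →+* K₁}
    (hψ₁ : ∀ g : M[X], algebraMap M[X] K₁ (pb (q.map (algebraMap L M)) (r.map (algebraMap L M))
      (g.map (RingHom.id M))) = (algebraMap M[X] K₁ (r.map (algebraMap L M))) ^ g.natDegree *
        ψ₁ (algebraMap M[X] K₀₁ g))
    {x : K₀₁} {u v : L[X]} (hv : v ≠ 0)
    (hx : ψ₁ x * algebraMap M[X] K₁ (v.map (algebraMap L M)) =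
      algebraMap M[X] K₁ (u.map (algebraMap L M))) :
    ∃ g h : L[X], h ≠ 0 ∧ x = algebraMap M[X] K₀₁ (g.map (algebraMap L M)) /
      algebraMap M[X] K₀₁ (h.map (algebraMap L M)) := by
  obtain ⟨g, h, h0, rfl⟩ := exists_div (L := L) M x
  obtain ⟨lam, hlam'⟩ := LinearMap.exists_leftInverse_of_injective (Algebra.linearMap L M)
    (LinearMap.ker_eq_bot.2 (algebraMap L M).injective)
  have hlam : ∀ c : L, lam (algebraMap L M c) = c := fun c => LinearMap.congr_fun hlam' c
  have inj₁ := IsFractionRing.injective M[X] K₁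
  have inj₀ := IsFractionRing.injective M[X] K₀₁
  set φ := algebraMap L M with hφ
  have hφi : Function.Injective φ := φ.injective
  set q1 := q.map φ with hq1
  set r1 := r.map φ with hr1
  have hr1' : algebraMap M[X] K₁ r1 ≠ 0 := by
    rw [Ne, map_eq_zero_iff _ inj₁, hr1, Polynomial.map_eq_zero_iff hφi]; exact hr
  set N := max g.natDegree h.natDegree with hN
  -- the homogenized pullbacks
  have HB : ∀ p : M[X], p.natDegree ≤ N → algebraMap M[X] K₁ (hb q1 r1 N p) =
      (algebraMap M[X] K₁ r1) ^ N * ψ₁ (algebraMap M[X] K₀₁ p) := by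
    intro p hp
    have := hb_psi (RingHom.id M) hψ₁ (g := p) hp
    rwa [Polynomial.map_id] at this
  have hh0 : h.map φ ≠ 0 := (Polynomial.map_ne_zero_iff hφi).2 h0
  have hh' : ψ₁ (algebraMap M[X] K₀₁ (h.map φ)) ≠ 0 := by
    rw [Ne, map_eq_zero_iff _ ψ₁.injective, map_eq_zero_iff _ inj₀]
    exact hh0
  rw [map_div₀] at hx
  have e1 : algebraMap M[X] K₁ (hb q1 r1 N g * v.map φ) =
      algebraMap M[X] K₁ (u.map φ * hb q1 r1 N (h.map φ)) := by
    rw [map_mul, map_mul, HB g (le_max_left _ _), HB (h.map φ) (by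
      rw [natDegree_map]; exact le_max_right _ _), ← hx]
    field_simp
  have e2 := inj₁ e1
  have e3 : hb q1 r1 N (h.map φ) = (hb q r N h).map φ := by
    rw [hb_map]
  rw [e3, hb_sum q1 r1 (le_max_left _ _), ← Polynomial.map_mul] at e2
  have e4 := desc_poly hlam e2
  -- the descended polynomial
  set g' : L[X] := ∑ i ∈ Finset.range (N + 1), C (lam (g.coeff i)) * X ^ i with hg'
  have hcoeff : ∀ i, i ≤ N → g'.coeff i = lam (g.coeff i) := by
    intro i hi
    rw [hg', finset_sum_coeff]
    simp only [coeff_C_mul, coeff_X_pow, mul_ite, mul_one, mul_zero]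
    rw [Finset.sum_ite_eq, if_pos (Finset.mem_range.2 (by omega))]
  have hdeg : g'.natDegree ≤ N := by
    rw [hg']
    refine natDegree_sum_le_of_forall_le _ _ fun i hi => ?_
    rw [Finset.mem_range] at hi
    exact (natDegree_C_mul_X_pow_le _ _).trans (by omega)
  have e5 : hb q r N g' * v = u * hb q r N h := by
    rw [hb_sum q r hdeg, ← e4]
    congr 1
    refine Finset.sum_congr rfl fun i hi => ?_
    rw [Finset.mem_range] at hi
    rw [hcoeff i (by omega)]
  have e6 : hb q1 r1 N (g'.map φ) = hb q1 r1 N g := by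
    have h1 := congrArg (Polynomial.map φ) e5
    rw [Polynomial.map_mul, hb_map] at h1
    have hv1 : v.map φ ≠ 0 := (Polynomial.map_ne_zero_iff hφi).2 hv
    apply mul_right_cancel₀ hv1
    rw [h1]
    have h2 := hb_sum q1 r1 (g := g) (M := N) (le_max_left _ _)
    rw [h2]
    exact e2.symm
  have e7 : algebraMap M[X] K₀₁ (g'.map φ) = algebraMap M[X] K₀₁ g := by
    have h1 := congrArg (algebraMap M[X] K₁) e6
    rw [HB g (le_max_left _ _), HB (g'.map φ) (by rw [natDegree_map]; exact hdeg)] at h1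
    exact ψ₁.injective (mul_left_cancel₀ (pow_ne_zero _ hr1') h1)
  exact ⟨g', h, h0, by rw [e7]⟩

end mid

section exists_maps

theorem exists_lift {L M K K₁ : Type} [Field L] [Field M] [Field K] [Field K₁] [Algebra L[X] K]
    [Algebra M[X] K₁] [IsFractionRing L[X] K] [IsFractionRing M[X] K₁] (φ : L →+* M) :
    ∃ i : K →+* K₁, ∀ p : L[X], i (algebraMap L[X] K p) = algebraMap M[X] K₁ (p.map φ) := by
  have hinj : Function.Injective ((algebraMap M[X] K₁).comp (mapRingHom φ)) :=
    (IsFractionRing.injective M[X] K₁).comp (Polynomial.map_injective φ φ.injective)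
  exact ⟨IsFractionRing.lift hinj, fun p => IsFractionRing.lift_algebraMap hinj p⟩

end exists_maps

end Pool.Agent.N181.P8
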