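import Pool.Agent.N181.P8.Deg
import Pool.Agent.X243.Gen.PullT

/-!
Coverings of the line with exactly one point above each point of bad reduction.
-/

set_option autoImplicit false
set_option linter.all false

open Polynomial
open scoped Classical

namespace Pool.Agent.N181.P8

open Pool.Agent.N181.T3 Pool.Agent.N181.P3
open Pool.Agent.X243.Gen (pb pb_sum pb_mul pb_C pb_one pb_pow pb_lin pb_map pb_frac pb_ne exists_psi
  natDegree_pb root_of_prime form_cop natDegree_pb_le)

section defs

variable {k : Type} [Field k]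

/-- Exactly one closed point of the `t`-line lies above the closed point `π = 0` of the `s`-line for the
map `s = q(t) / r(t)` of degree `n`: the point `ρ = 0`, with ramification index `e` and residue degree
`f`. Here `pb q r π` is the polynomial `r ^ (deg π) π(q / r)`. -/
def OneAbove (q r : k[X]) (n : ℕ) (π : k[X]) : Prop :=
  ∃ (ρ : k[X]) (e f : ℕ) (u : k), u ≠ 0 ∧ Irreducible ρ ∧ ρ.Separable ∧ e * f = n ∧
    ρ.natDegree = f * π.natDegree ∧ pb q r π = C u * ρ ^ e

/-- Exactly one closed point lies above the point at infinity of the `s`-line: the point at infinity, or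
the point `ρ = 0`. -/
def OneAboveInf (r : k[X]) (n : ℕ) : Prop :=
  r = 1 ∨ ∃ (ρ : k[X]) (e f : ℕ) (u : k), u ≠ 0 ∧ Irreducible ρ ∧ ρ.Separable ∧ e * f = n ∧
    ρ.natDegree = f ∧ r = C u * ρ ^ e

/-- The map `s = q(t) / r(t)` of degree `n` prime to `6` has exactly one point above each place of bad
reduction of `y² + a x y + b y = x³` over `k(s)`, `deg a ≤ 1`, `deg b ≤ 3` (the place at infinity is a
place of good reduction if `b` and `a³ - 27 b` have degree three). -/
structure Cover (q r : k[X]) (n : ℕ) (a b : k[X]) : Prop where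
  co : IsCoprime q r
  qp : 0 < q.natDegree
  qn : q.natDegree ≤ n
  rn : r.natDegree ≤ n
  six : Nat.Coprime n 6
  fin : ∀ π : k[X], Irreducible π → π ∣ b * (a ^ 3 - 27 * b) → π.Separable ∧ OneAbove q r n π
  inf : (b.natDegree = 3 ∧ (a ^ 3 - 27 * b).natDegree = 3) ∨ OneAboveInf r n

end defs

section overM

variable {k M : Type} [Field k] [Field M] [Algebra k M] [FiniteDimensional k M]

theorem three_of_six {n e : ℕ} (h6 : Nat.Coprime n 6) (he : e ∣ n) : ¬ 3 ∣ e := by
  intro h
  have h1 : 3 ∣ Nat.gcd n 6 := Nat.dvd_gcd (h.trans he) (by norm_num)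
  rw [h6] at h1
  omega

/-- The form of a root. -/
theorem form_over {q r : k[X]} {n : ℕ} (h6 : Nat.Coprime n 6)
    (hn : Nat.Coprime n (Module.finrank k M))
    (hco : IsCoprime q r) (hq : 0 < q.natDegree) (hqn : q.natDegree ≤ n) (hrn : r.natDegree ≤ n)
    {π : k[X]} (hπ : Irreducible π)
    (hπs : π.Separable) (h1 : OneAbove q r n π) (hs : (π.map (algebraMap k M)).Splits)
    {ξ : M} (hξ : (π.map (algebraMap k M)).IsRoot ξ) (L' : Type) [Field L'] [Algebra M L'] :
    PwS L' (q.map (algebraMap k M) - C ξ * r.map (algebraMap k M)) ∧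
      (q.map (algebraMap k M) - C ξ * r.map (algebraMap k M)).natDegree = n := by
  obtain ⟨ρ, e, f, u, hu, hρ, hρs, hef, hdeg, hpb⟩ := h1
  have inj := (algebraMap k M).injective
  set q1 := q.map (algebraMap k M) with hq1
  set r1 := r.map (algebraMap k M) with hr1
  have hn0 : 0 < n := hq.trans_le hqn
  have hco1 : IsCoprime q1 r1 := hco.map (mapRingHom (algebraMap k M))
  have hq1d : 0 < q1.natDegree := by rw [hq1, natDegree_map]; exact hq
  have hpi0 : π.map (algebraMap k M) ≠ 0 := (Polynomial.map_ne_zero_iff inj).2 hπ.ne_zero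
  obtain ⟨π', hπ'⟩ := dvd_iff_isRoot.2 hξ
  have hπ'0 : π' ≠ 0 := by
    rintro rfl
    rw [mul_zero] at hπ'
    exact hpi0 hπ'
  have hπ's : π'.Splits := hs.of_dvd hpi0 ⟨_, by rw [mul_comm]; exact hπ'⟩
  have hd1 : π.natDegree = 1 + π'.natDegree := by
    have := congrArg natDegree hπ'
    rw [natDegree_map, natDegree_mul (X_sub_C_ne_zero ξ) hπ'0, natDegree_X_sub_C] at this
    exact this
  set F := q1 - C ξ * r1 with hF
  have hpb1 : F * pb q1 r1 π' = C (algebraMap k M u) * (ρ.map (algebraMap k M)) ^ e := by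
    have := congrArg (Polynomial.map (algebraMap k M)) hpb
    rw [pb_map, hπ', pb_mul, pb_lin, Polynomial.map_mul, Polynomial.map_pow, map_C] at this
    exact this
  have hu1 : algebraMap k M u ≠ 0 := (map_ne_zero_iff _ inj).2 hu
  have hρ10 : ρ.map (algebraMap k M) ≠ 0 := (Polynomial.map_ne_zero_iff inj).2 hρ.ne_zero
  have hP0 : pb q1 r1 π' ≠ 0 := pb_ne hco1 hq1d hπ'0
  have hF0 : F ≠ 0 := by
    intro h0
    rw [h0, zero_mul] at hpb1
    exact (mul_ne_zero (C_ne_zero.2 hu1) (pow_ne_zero e hρ10)) hpb1.symm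
  -- the degree
  have hFn : F.natDegree = n := by
    have h1 := congrArg natDegree hpb1
    rw [natDegree_mul hF0 hP0, natDegree_C_mul hu1, natDegree_pow, natDegree_map, hdeg, hd1] at h1
    have h2 : (pb q1 r1 π').natDegree ≤ n * π'.natDegree := natDegree_pb_le
      (by rw [hq1, natDegree_map]; exact hqn) (by rw [hr1, natDegree_map]; exact hrn) π'
    have h3 : F.natDegree ≤ n := by
      refine (natDegree_sub_le _ _).trans (max_le (by rw [hq1, natDegree_map]; exact hqn) ?_)
      exact (natDegree_C_mul_le _ _).trans (by rw [hr1, natDegree_map]; exact hrn)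
    have h4 : e * (f * (1 + π'.natDegree)) = n + n * π'.natDegree := by
      rw [← mul_assoc, hef]; ring
    rw [h4] at h1
    omega
  refine ⟨?_, hFn⟩
  have hFu : ¬ IsUnit F := by
    intro h
    have := natDegree_eq_zero_of_isUnit h
    omega
  obtain ⟨g, hg, hgF⟩ := WfDvdMonoid.exists_irreducible_factor hFu hF0
  have hcu : IsUnit (C (algebraMap k M u) : M[X]) := isUnit_C.2 (isUnit_iff_ne_zero.2 hu1)
  have hgρ : g ∣ ρ.map (algebraMap k M) := by
    have h1 : g ∣ C (algebraMap k M u) * (ρ.map (algebraMap k M)) ^ e := by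
      rw [← hpb1]
      exact hgF.mul_right _
    exact hg.prime.dvd_of_dvd_pow (hcu.dvd_mul_left.1 h1)
  -- the degree of `g`
  have hfg : f ∣ g.natDegree := by
    have h1 := deg_dvd hρ hg hgρ
    rw [hdeg] at h1
    have h2 : f ∣ g.natDegree * Module.finrank k M := (dvd_mul_right f _).trans h1
    refine Nat.Coprime.dvd_of_dvd_mul_right ?_ h2
    exact Nat.Coprime.coprime_dvd_left ⟨e, by rw [mul_comm]; exact hef.symm⟩ hn
  -- `g` does not divide the other factors
  have hgP : ¬ g ∣ pb q1 r1 π' := by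
    intro h
    obtain ⟨ξ', hξ', h1⟩ := root_of_prime (RingHom.id M) hπ'0 hπ's hg.prime
      (by rw [Polynomial.map_id]; exact h)
    have hne : ξ ≠ ξ' := by
      rintro rfl
      have h2 : (X - C ξ) ^ 2 ∣ π.map (algebraMap k M) := by
        rw [hπ', pow_two]
        exact mul_dvd_mul_left _ (dvd_iff_isRoot.2 hξ')
      have h3 := (hπs.map (f := algebraMap k M)).squarefree (X - C ξ) (by rwa [pow_two] at h2)
      exact (irreducible_X_sub_C ξ).not_isUnit h3
    exact hg.not_isUnit (form_cop (RingHom.id M) hco1 hne hgF h1)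
  have hge : g ^ e ∣ F := by
    apply hg.prime.pow_dvd_of_dvd_mul_right e hgP
    rw [hpb1]
    exact (pow_dvd_pow_of_dvd hgρ e).mul_left _
  have hassoc : Associated (g ^ e) F := by
    apply associated_of_dvd_of_natDegree_le hge hF0
    rw [natDegree_pow, hFn, ← hef]
    exact Nat.mul_le_mul_left e (Nat.le_of_dvd hg.natDegree_pos hfg)
  have hgf : g.natDegree ∣ n := by
    have h1 := natDegree_le_of_dvd hge hF0
    have h2 : (g ^ e).natDegree = n := by
      apply le_antisymm (by rw [← hFn]; exact h1)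
      rw [natDegree_pow, ← hef]
      exact Nat.mul_le_mul_left e (Nat.le_of_dvd hg.natDegree_pos hfg)
    rw [natDegree_pow] at h2
    exact ⟨e, by rw [← h2, mul_comm]⟩
  obtain ⟨x, hx⟩ := hassoc
  obtain ⟨v, hv, hvx⟩ := Polynomial.isUnit_iff.1 x.isUnit
  refine ⟨g, e, v, hv.ne_zero, three_of_six h6 ⟨f, hef.symm⟩, hρs.map.of_dvd hgρ,
    stays_of_coprime hg (Nat.Coprime.coprime_dvd_left hgf h6), ?_⟩
  rw [← hx, ← hvx, mul_comm]

theorem inf_over {r : k[X]} {n : ℕ} (hn0 : 0 < n) (h6 : Nat.Coprime n 6)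
    (hn : Nat.Coprime n (Module.finrank k M)) (h : OneAboveInf r n)
    (L' : Type) [Field L'] [Algebra M L'] :
    r.map (algebraMap k M) = 1 ∨ (PwS L' (r.map (algebraMap k M)) ∧
      (r.map (algebraMap k M)).natDegree = n) := by
  rcases h with h | ⟨ρ, e, f, u, hu, hρ, hρs, hef, hdeg, hr⟩
  · left
    rw [h, Polynomial.map_one]
  · right
    have hu1 : algebraMap k M u ≠ 0 := (map_ne_zero_iff _ (algebraMap k M).injective).2 hu
    have hfn : f ∣ n := ⟨e, by rw [mul_comm]; exact hef.symm⟩
    have hirr : Irreducible (ρ.map (algebraMap k M)) := irr_of_coprime hρ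
      (by rw [hdeg]; exact Nat.Coprime.coprime_dvd_left hfn hn)
    refine ⟨⟨ρ.map (algebraMap k M), e, algebraMap k M u, hu1, three_of_six h6 ⟨f, hef.symm⟩,
      hρs.map, stays_of_coprime hirr ?_, ?_⟩, ?_⟩
    · rw [natDegree_map, hdeg]
      exact Nat.Coprime.coprime_dvd_left hfn h6
    · rw [hr, Polynomial.map_mul, Polynomial.map_pow, map_C]
    · rw [natDegree_map, hr, natDegree_C_mul hu, natDegree_pow, hdeg, hef]

theorem fib_over {q r a b : k[X]} {n : ℕ} (hn : Nat.Coprime n (Module.finrank k M))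
    (hC : Cover q r n a b) (h0 : b * (a ^ 3 - 27 * b) ≠ 0)
    (hs : ((b * (a ^ 3 - 27 * b)).map (algebraMap k M)).Splits)
    (L' : Type) [Field L'] [Algebra M L'] :
    Fib8 (algebraMap M M) L' ((q.map (algebraMap k M)).map (algebraMap M M))
      ((r.map (algebraMap k M)).map (algebraMap M M)) 1 n (a.map (algebraMap k M))
      (b.map (algebraMap k M)) := by
  have inj := (algebraMap k M).injective
  have e1 : algebraMap M M = RingHom.id M := rfl
  rw [e1, Polynomial.map_id, Polynomial.map_id]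
  have hn0 : 0 < n := hC.qp.trans_le hC.qn
  have hmap0 : (b * (a ^ 3 - 27 * b)).map (algebraMap k M) ≠ 0 :=
    (Polynomial.map_ne_zero_iff inj).2 h0
  have edisc : (b.map (algebraMap k M)) * ((a.map (algebraMap k M)) ^ 3 -
      27 * b.map (algebraMap k M)) = (b * (a ^ 3 - 27 * b)).map (algebraMap k M) := by
    rw [Polynomial.map_mul, Polynomial.map_sub, Polynomial.map_pow, Polynomial.map_mul,
      Polynomial.map_ofNat]
  have ed : (a.map (algebraMap k M)) ^ 3 - 27 * b.map (algebraMap k M) =
      (a ^ 3 - 27 * b).map (algebraMap k M) := by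
    rw [Polynomial.map_sub, Polynomial.map_pow, Polynomial.map_mul, Polynomial.map_ofNat]
  refine ⟨hC.co.map (mapRingHom (algebraMap k M)), ?_, ?_, ?_, ?_, ?_⟩
  · rw [natDegree_map]; exact hC.qp
  · rw [natDegree_map]; exact hC.qn
  · rw [natDegree_map]; exact hC.rn
  · intro ξ hξ
    rw [edisc] at hξ
    have hint : IsIntegral k ξ := IsIntegral.of_finite k ξ
    have hd : minpoly k ξ ∣ b * (a ^ 3 - 27 * b) := by
      apply minpoly.dvd
      rw [← eval_map_algebraMap]
      exact hξ
    have hirr := minpoly.irreducible hint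
    obtain ⟨h1, h2⟩ := hC.fin _ hirr hd
    refine form_over hC.six hn hC.co hC.qp hC.qn hC.rn hirr h1 h2
      (hs.of_dvd hmap0 ((mapRingHom (algebraMap k M)).map_dvd hd)) ?_ L'
    rw [IsRoot.def, eval_map_algebraMap]
    exact minpoly.aeval k ξ
  · rw [ed, natDegree_map, natDegree_map]
    rcases hC.inf with h | h
    · exact Or.inr (Or.inl h)
    · rcases inf_over hn0 hC.six hn h L' with h | h
      · exact Or.inl h
      · exact Or.inr (Or.inr h)

end overM

end Pool.Agent.N181.P8
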