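import Pool.Agent.N181.P8.Mid

/-!
Descent of the statement on the points.
-/

set_option autoImplicit false
set_option linter.all false

open Polynomial IsDedekindDomain WeierstrassCurve WeierstrassCurve.Affine
open scoped Classical

namespace Pool.Agent.N181.P8

open Pool.Agent.N181.T3 Pool.Agent.N181.P3
open Pool.Agent.X243.Gen (pb pb_sum pb_mul pb_C pb_one pb_pow pb_lin pb_map pb_frac pb_ne exists_psi
  natDegree_pb root_of_prime form_cop)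
open Pool.Agent.TH115.GD (Pt act incl rs ak act_zero act_some act_inj act_act IsTower Sep)

section pts

variable {L M : Type} [Field L] [Field M] [Algebra L M] [FiniteDimensional L M]
  {K₀ K K₀₁ K₁ : Type} [Field K₀] [Field K] [Field K₀₁] [Field K₁] [Algebra L[X] K₀]
  [Algebra L[X] K] [Algebra M[X] K₀₁] [Algebra M[X] K₁] [IsFractionRing L[X] K₀]
  [IsFractionRing L[X] K] [IsFractionRing M[X] K₀₁] [IsFractionRing M[X] K₁] [Algebra K K₁]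

theorem psi_compat (hKK : ∀ p : L[X], algebraMap K K₁ (algebraMap L[X] K p) =
      algebraMap M[X] K₁ (p.map (algebraMap L M)))
    {q r : L[X]} (hr : r ≠ 0) {ψ : K₀ →+* K} {ψ₁ : K₀₁ →+* K₁} {j₀ : K₀ →+* K₀₁}
    (hj : ∀ p : L[X], j₀ (algebraMap L[X] K₀ p) = algebraMap M[X] K₀₁ (p.map (algebraMap L M)))
    (hψ : ∀ g : L[X], algebraMap L[X] K (pb q r (g.map (RingHom.id L))) =
      (algebraMap L[X] K r) ^ g.natDegree * ψ (algebraMap L[X] K₀ g))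
    (hψ₁ : ∀ g : M[X], algebraMap M[X] K₁ (pb (q.map (algebraMap L M)) (r.map (algebraMap L M))
      (g.map (RingHom.id M))) = (algebraMap M[X] K₁ (r.map (algebraMap L M))) ^ g.natDegree *
        ψ₁ (algebraMap M[X] K₀₁ g)) (x : K₀) : ψ₁ (j₀ x) = algebraMap K K₁ (ψ x) := by
  have inj₁ := IsFractionRing.injective M[X] K₁
  have hr1' : algebraMap M[X] K₁ (r.map (algebraMap L M)) ≠ 0 := by
    rw [Ne, map_eq_zero_iff _ inj₁, Polynomial.map_eq_zero_iff (algebraMap L M).injective]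
    exact hr
  have key : ∀ g : L[X], ψ₁ (j₀ (algebraMap L[X] K₀ g)) = algebraMap K K₁ (ψ (algebraMap L[X] K₀ g)) := by
    intro g
    rw [hj]
    have h1 := hψ₁ (g.map (algebraMap L M))
    have h2 := congrArg (algebraMap K K₁) (hψ g)
    rw [Polynomial.map_id] at h1 h2
    rw [hKK, pb_map, map_mul, map_pow, hKK] at h2
    rw [h2, natDegree_map] at h1
    exact (mul_left_cancel₀ (pow_ne_zero _ hr1') h1).symm
  obtain ⟨g, h, hh, rfl⟩ := IsFractionRing.div_surjective (A := L[X]) x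
  rw [map_div₀, map_div₀, map_div₀, map_div₀, key, key]

theorem pts_desc (h3 : (3 : L) ≠ 0)
    (hKK : ∀ p : L[X], algebraMap K K₁ (algebraMap L[X] K p) =
      algebraMap M[X] K₁ (p.map (algebraMap L M)))
    {q r : L[X]} (hr : r ≠ 0)
    (hne : ∀ g : M[X], g ≠ 0 →
      pb (q.map (algebraMap L M)) (r.map (algebraMap L M)) g ≠ 0)
    {ψ : K₀ →+* K} {ψ₁ : K₀₁ →+* K₁} {j₀ : K₀ →+* K₀₁}
    (hj : ∀ p : L[X], j₀ (algebraMap L[X] K₀ p) = algebraMap M[X] K₀₁ (p.map (algebraMap L M)))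
    (hψ : ∀ g : L[X], algebraMap L[X] K (pb q r (g.map (RingHom.id L))) =
      (algebraMap L[X] K r) ^ g.natDegree * ψ (algebraMap L[X] K₀ g))
    (hψ₁ : ∀ g : M[X], algebraMap M[X] K₁ (pb (q.map (algebraMap L M)) (r.map (algebraMap L M))
      (g.map (RingHom.id M))) = (algebraMap M[X] K₁ (r.map (algebraMap L M))) ^ g.natDegree *
        ψ₁ (algebraMap M[X] K₀₁ g))
    {a₀ b₀ : K₀} (hb₀ : b₀ ≠ 0) (hd₀ : a₀ ^ 3 - 27 * b₀ ≠ 0) {aK bK ρ : K} (hρ : ρ ≠ 0)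
    {ι : Pt (crv3 a₀ b₀) K₀ →+ Pt (crv3 aK bK) K}
    (hι : ∀ (x y : K₀) (hn : ((crv3 a₀ b₀).baseChange K₀).toAffine.Nonsingular x y),
        ∃ hn' : ((crv3 aK bK).baseChange K).toAffine.Nonsingular (ρ ^ 2 * ψ x) (ρ ^ 3 * ψ y),
          ι (Point.some x y hn) = Point.some (ρ ^ 2 * ψ x) (ρ ^ 3 * ψ y) hn')
    {a₁ b₁ : K₀₁} (ha₁ : a₁ = j₀ a₀) (hb₁ : b₁ = j₀ b₀) {aK₁ bK₁ ρ₁ : K₁}
    (hρ₁ : ρ₁ = algebraMap K K₁ ρ)
    {ι₁ : Pt (crv3 a₁ b₁) K₀₁ →+ Pt (crv3 aK₁ bK₁) K₁}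
    (hι₁ : ∀ (x y : K₀₁) (hn : ((crv3 a₁ b₁).baseChange K₀₁).toAffine.Nonsingular x y),
        ∃ hn' : ((crv3 aK₁ bK₁).baseChange K₁).toAffine.Nonsingular (ρ₁ ^ 2 * ψ₁ x)
          (ρ₁ ^ 3 * ψ₁ y), ι₁ (Point.some x y hn) = Point.some (ρ₁ ^ 2 * ψ₁ x) (ρ₁ ^ 3 * ψ₁ y) hn')
    (P : Pt (crv3 aK bK) K) (P' : Pt (crv3 aK₁ bK₁) K₁)
    (hPP : (P = 0 ∧ P' = 0) ∨ ∃ (x y : K) (h : ((crv3 aK bK).baseChange K).toAffine.Nonsingular x y)
      (h' : ((crv3 aK₁ bK₁).baseChange K₁).toAffine.Nonsingular (algebraMap K K₁ x)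
        (algebraMap K K₁ y)), P = Point.some x y h ∧ P' = Point.some _ _ h')
    (P₀₁ : Pt (crv3 a₁ b₁) K₀₁) (hP : ι₁ P₀₁ = P') : ∃ P₀ : Pt (crv3 a₀ b₀) K₀, ι P₀ = P := by
  rcases hPP with ⟨rfl, -⟩ | ⟨x, y, h, h', rfl, rfl⟩
  · exact ⟨0, map_zero _⟩
  have hcomp := psi_compat (K₀ := K₀) hKK hr hj hψ hψ₁
  have hinjK := (algebraMap K K₁).injective
  have hρ₁0 : ρ₁ ≠ 0 := by rw [hρ₁]; exact (map_ne_zero_iff _ hinjK).2 hρ
  rcases P₀₁ with _ | ⟨x₁, y₁, hn₁⟩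
  · exfalso
    have h0 : ι₁ (Point.zero : Pt (crv3 a₁ b₁) K₀₁) = 0 := map_zero ι₁
    rw [h0] at hP
    cases hP
  obtain ⟨hn', e⟩ := hι₁ x₁ y₁ hn₁
  rw [e] at hP
  have h1 := Point.some.inj hP
  obtain ⟨hx, hy⟩ := h1
  -- the coordinates come from `K₀`
  have back : ∀ (z : K₀₁) (w : K), ψ₁ z = algebraMap K K₁ w → ∃ z₀ : K₀, z = j₀ z₀ := by
    intro z w hz
    obtain ⟨u, v, hv, rfl⟩ := IsFractionRing.div_surjective (A := L[X]) w
    have hv0 := nonZeroDivisors.ne_zero hv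
    have hv' : algebraMap L[X] K v ≠ 0 := by simpa using hv0
    obtain ⟨g, h, h0, e⟩ := desc_fun (L := L) (K₀ := K₀) hne hr hψ₁ (x := z) (u := u) (v := v) hv0
      (by
        rw [hz, ← hKK, ← hKK, ← map_mul, div_mul_cancel₀ _ hv'])
    exact ⟨algebraMap L[X] K₀ g / algebraMap L[X] K₀ h, by rw [e, map_div₀, hj, hj]⟩
  obtain ⟨x₀, hx₀⟩ := back x₁ (x / ρ ^ 2) (by
    rw [map_div₀, map_pow, ← hρ₁, ← hx]
    field_simp)
  obtain ⟨y₀, hy₀⟩ := back y₁ (y / ρ ^ 3) (by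
    rw [map_div₀, map_pow, ← hρ₁, ← hy]
    field_simp)
  have h3₀ : (3 : K₀) ≠ 0 := by
    have h3 : algebraMap L[X] K₀ (C 3) ≠ 0 := by
      simpa using h3
    rwa [C_ofNat, map_ofNat] at h3
  have hn₀ : ((crv3 a₀ b₀).baseChange K₀).toAffine.Nonsingular x₀ y₀ := by
    rw [(isE_base h3₀ hb₀ hd₀).nonsingular]
    have h4 := crv3_eq hn₁
    rw [ha₁, hb₁, hx₀, hy₀] at h4
    apply j₀.injective
    simp only [map_add, map_mul, map_pow]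
    exact h4
  obtain ⟨hn2, e2⟩ := hι x₀ y₀ hn₀
  refine ⟨Point.some x₀ y₀ hn₀, ?_⟩
  rw [e2]
  have ex : ρ ^ 2 * ψ x₀ = x := by
    apply hinjK
    rw [map_mul, map_pow, ← hρ₁, ← hcomp, ← hx₀, hx]
  have ey : ρ ^ 3 * ψ y₀ = y := by
    apply hinjK
    rw [map_mul, map_pow, ← hρ₁, ← hcomp, ← hy₀, hy]
  simp only [ex, ey]

end pts

end Pool.Agent.N181.P8
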