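import Pool.Agent.N181.P8.Pts
import Pool.Agent.N181.P8.Over

/-!
The finite extension of the constants over which the first descents are complete.
-/

set_option autoImplicit false
set_option linter.all false

open Polynomial IsDedekindDomain WeierstrassCurve WeierstrassCurve.Affine
open scoped Classical

namespace Pool.Agent.N181.P8

open Pool.Agent.N181.T3 Pool.Agent.N181.P3
open Pool.Agent.X243.Gen (pb pb_sum pb_mul pb_C pb_one pb_pow pb_lin pb_map pb_frac pb_ne exists_psi
  natDegree_pb root_of_prime form_cop)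
open Pool.Agent.TH115.GD (Pt act incl rs ak act_zero act_some act_inj act_act IsTower Sep
  splits_of_sep)

/-- The elliptic curve `y² + a x y + b y = x³` over `k(s)` with `deg a ≤ 1`, `deg b ≤ 3` (a rational
elliptic surface with a section of order three), where `b` and `a³ - 27 b` are not constants times cubes
(in particular they are not constant). -/
structure RatBase {k : Type} [Field k] (a b : k[X]) : Prop where
  three : (3 : k) ≠ 0
  da : a.natDegree ≤ 1
  db : b.natDegree ≤ 3
  cb : ∀ (c : k) (w : k[X]), b ≠ C c * w ^ 3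
  cd : ∀ (c : k) (w : k[X]), a ^ 3 - 27 * b ≠ C c * w ^ 3

section lemmas

variable {k M : Type} [Field k] [Field M]

theorem sep_map (φ : k →+* M) {p : k[X]} (hp : p ≠ 0)
    (h : ∀ π : k[X], Irreducible π → π ∣ p → π.Separable) :
    ∀ π' : M[X], Irreducible π' → π' ∣ p.map φ → π'.Separable := by
  revert hp h
  refine WfDvdMonoid.induction_on_irreducible p ?_ ?_ ?_
  · intro h
    exact absurd rfl h
  · intro u hu _ _ π' h1 h2
    exact absurd (isUnit_of_dvd_unit h2 (hu.map (mapRingHom φ))) h1.not_isUnit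
  · intro q π hq hπ ih _ h π' h1 h2
    rw [Polynomial.map_mul] at h2
    rcases h1.prime.dvd_or_dvd h2 with h3 | h3
    · exact (h π hπ (dvd_mul_right _ _)).map.of_dvd h3
    · exact ih hq (fun ρ h4 h5 => h ρ h4 (h5.mul_left _)) π' h1 h3

theorem three_map (φ : k →+* M) (h : (3 : k) ≠ 0) : (3 : M) ≠ 0 := by
  rw [← map_ofNat φ 3]
  exact (map_ne_zero_iff _ φ.injective).2 h

/-- A polynomial of degree at most three which becomes a constant times a cube over an extension is a
constant times a cube. -/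
theorem noncube_map (φ : k →+* M) (h3 : (3 : k) ≠ 0) {b : k[X]} (db : b.natDegree ≤ 3)
    (cb : ∀ (c : k) (w : k[X]), b ≠ C c * w ^ 3) :
    ∀ (c : M) (w : M[X]), b.map φ ≠ C c * w ^ 3 := by
  intro c w e
  have hb0 : b ≠ 0 := by
    rintro rfl
    exact cb 0 0 (by simp)
  have hc : c ≠ 0 := by
    rintro rfl
    rw [C_0, zero_mul, Polynomial.map_eq_zero_iff φ.injective] at e
    exact hb0 e
  have hd := congrArg natDegree e
  rw [natDegree_map, natDegree_C_mul hc, natDegree_pow] at hd
  have hw : w.natDegree ≤ 1 := by omega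
  have ew := eq_X_add_C_of_natDegree_le_one hw
  set u := w.coeff 1 with hu
  set v := w.coeff 0 with hv
  have h3M := three_map φ h3
  have E : b.map φ = C c * (C u * X + C v) ^ 3 := by
    rw [e]
    conv_lhs => rw [ew]
  by_cases hu0 : u = 0
  · have h0 : b.natDegree = 0 := by
      rw [hd, ew, hu0, C_0, zero_mul, zero_add, natDegree_C, mul_zero]
    rw [eq_C_of_natDegree_eq_zero h0] at cb
    exact cb (b.coeff 0) 1 (by rw [one_pow, mul_one])
  · -- coefficients
    have E' : b.map φ = C (c * u ^ 3) * X ^ 3 + C (3 * c * u ^ 2 * v) * X ^ 2 +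
        C (3 * c * u * v ^ 2) * X + C (c * v ^ 3) := by
      rw [E]
      have e3 : (3 : M[X]) = C 3 := rfl
      simp only [C_mul, C_pow]
      rw [← e3]
      ring
    have c3 : φ (b.coeff 3) = c * u ^ 3 := by
      rw [← coeff_map, E', coeff_add, coeff_add, coeff_add, coeff_C_mul, coeff_C_mul, coeff_C_mul,
        coeff_X_pow, coeff_X_pow, coeff_X, coeff_C]
      simp
    have c2 : φ (b.coeff 2) = 3 * c * u ^ 2 * v := by
      rw [← coeff_map, E', coeff_add, coeff_add, coeff_add, coeff_C_mul, coeff_C_mul, coeff_C_mul,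
        coeff_X_pow, coeff_X_pow, coeff_X, coeff_C]
      simp
    have hb3 : b.coeff 3 ≠ 0 := by
      intro h
      rw [h, map_zero] at c3
      exact (mul_ne_zero hc (pow_ne_zero 3 hu0)) c3.symm
    apply cb (b.coeff 3) (X + C (b.coeff 2 / (3 * b.coeff 3)))
    apply Polynomial.map_injective φ φ.injective
    have e4 : φ (b.coeff 2 / (3 * b.coeff 3)) = v / u := by
      rw [map_div₀, map_mul φ, map_ofNat φ, c2, c3]
      field_simp
    rw [E, Polynomial.map_mul, Polynomial.map_pow, Polynomial.map_add, map_X, map_C, map_C, c3, e4]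
    have e5 : C u * X + C v = C u * (X + C (v / u)) := by
      rw [mul_add, ← C_mul, mul_div_cancel₀ _ hu0]
    rw [e5, C_mul, C_pow]
    ring

/-- There is a root whose multiplicity is not divisible by three. -/
theorem exists_mult3 {b : k[X]} (db : b.natDegree ≤ 3) (hs : b.Splits)
    (cb : ∀ (c : k) (w : k[X]), b ≠ C c * w ^ 3) : ∃ ξ : k, ¬ 3 ∣ b.rootMultiplicity ξ := by
  by_contra hcon
  push Not at hcon
  have hb0 : b ≠ 0 := by
    rintro rfl
    exact cb 0 0 (by simp)
  by_cases h0 : b.natDegree = 0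
  · rw [eq_C_of_natDegree_eq_zero h0] at cb
    exact cb (b.coeff 0) 1 (by rw [one_pow, mul_one])
  · obtain ⟨ξ, hξ⟩ := hs.exists_eval_eq_zero (by
      intro h
      exact h0 (natDegree_eq_of_degree_eq_some (n := 0) h))
    have h1 : 0 < b.rootMultiplicity ξ := (rootMultiplicity_pos hb0).2 hξ
    have h2 := hcon ξ
    have h4 : (X - C ξ) ^ 3 ∣ b :=
      (pow_dvd_pow _ (Nat.le_of_dvd h1 h2)).trans (pow_rootMultiplicity_dvd b ξ)
    have h5 : Associated ((X - C ξ) ^ 3) b := associated_of_dvd_of_natDegree_le h4 hb0 (by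
      rw [natDegree_pow, natDegree_X_sub_C]; omega)
    obtain ⟨x, hx⟩ := h5
    obtain ⟨v, hv, hvx⟩ := Polynomial.isUnit_iff.1 x.isUnit
    exact cb v (X - C ξ) (by rw [← hx, ← hvx, mul_comm])

theorem RatBase.hb0 {a b : k[X]} (h : RatBase a b) : b ≠ 0 := by
  rintro rfl
  exact h.cb 0 0 (by simp)

theorem RatBase.hd0 {a b : k[X]} (h : RatBase a b) : a ^ 3 - 27 * b ≠ 0 := by
  intro e
  exact h.cd 0 0 (by rw [e]; simp)

theorem RatBase.dd {a b : k[X]} (h : RatBase a b) : (a ^ 3 - 27 * b).natDegree ≤ 3 := by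
  refine (natDegree_sub_le _ _).trans (max_le ?_ ?_)
  · refine natDegree_pow_le.trans ?_
    have := h.da
    omega
  · have e4 : (27 : k[X]) = C 27 := rfl
    rw [e4]
    exact (natDegree_C_mul_le _ _).trans h.db

theorem RatBase.map (φ : k →+* M) {a b : k[X]} (h : RatBase a b) :
    RatBase (a.map φ) (b.map φ) :=
  ⟨three_map φ h.three, by rw [natDegree_map]; exact h.da, by rw [natDegree_map]; exact h.db,
    noncube_map φ h.three h.db h.cb, by
      rw [map_disc]
      exact noncube_map φ h.three h.dd h.cd⟩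

end lemmas

section setup

variable {L L' : Type} [Field L] [Field L'] [Algebra L L'] [IsSepClosure L L']

/-- **The extension of the constants.** -/
theorem exists_small {a b : L[X]} (hB : RatBase a b) {n : ℕ} (hn : Nat.Coprime n 6)
    (hsep : ∀ π : L[X], Irreducible π → π ∣ b * (a ^ 3 - 27 * b) → π.Separable) :
    ∃ M : IntermediateField L L', Small n M ∧
      ((b * (a ^ 3 - 27 * b)).map (algebraMap L M)).Splits ∧ (∃ z : M, z ^ 2 + z + 1 = 0) ∧
      ∀ (K : Type) [Field K] [Algebra M[X] K] [IsFractionRing M[X] K],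
        Base3 K 1 (a.map (algebraMap L M)) (b.map (algebraMap L M)) := by
  haveI : IsSepClosed L' := IsSepClosure.sep_closed L
  have hb0 := hB.hb0
  have hd0 := hB.hd0
  have h0 : b * (a ^ 3 - 27 * b) ≠ 0 := mul_ne_zero hb0 hd0
  have h3' : (3 : L') ≠ 0 := three_map (algebraMap L L') hB.three
  have hs := splits_of_sep (k' := L') h0 hsep
  obtain ⟨z, hz⟩ := exists_z (F := L') h3'
  -- the roots
  set S : Finset L' := ((b * (a ^ 3 - 27 * b)).rootSet_finite L').toFinset ∪ {z} with hS
  obtain ⟨M1, -, hM1, hS1⟩ := small_set hn S (by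
    intro x hx
    rw [hS, Finset.mem_union, Set.Finite.mem_toFinset, Finset.mem_singleton] at hx
    rcases hx with hx | rfl
    · rw [mem_rootSet] at hx
      have h1 := hx.2
      rw [map_mul] at h1
      rcases mul_eq_zero.1 h1 with h | h
      · exact ⟨b, hb0, hB.db, h⟩
      · exact ⟨_, hd0, hB.dd, h⟩
    · refine ⟨X ^ 2 + X + 1, ?_, ?_, ?_⟩
      · intro h
        have := congrArg (fun p => coeff p 2) h
        simp [coeff_X, coeff_one] at this
      · refine (natDegree_add_le _ _).trans (max_le ((natDegree_add_le _ _).trans (max_le ?_ ?_)) ?_)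
        · rw [natDegree_X_pow]; norm_num
        · rw [natDegree_X]; norm_num
        · rw [natDegree_one]; norm_num
      · simpa using hz) ⊥ (small_bot n)
  have hsM1 : ((b * (a ^ 3 - 27 * b)).map (algebraMap L M1)).Splits :=
    IntermediateField.splits_of_splits hs fun x hx => hS1 x (by
      rw [hS, Finset.mem_union, Set.Finite.mem_toFinset]
      exact Or.inl hx)
  have hz1 : z ∈ M1 := hS1 z (by
    rw [hS, Finset.mem_union]
    exact Or.inr (Finset.mem_singleton_self z))
  have hB1 := hB.map (algebraMap L M1)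
  have inj1 := (algebraMap L M1).injective
  have h01 : (b * (a ^ 3 - 27 * b)).map (algebraMap L M1) ≠ 0 :=
    (Polynomial.map_ne_zero_iff inj1).2 h0
  have sb1 : (b.map (algebraMap L M1)).Splits :=
    hsM1.of_dvd h01 ((mapRingHom (algebraMap L M1)).map_dvd (dvd_mul_right _ _))
  have sd1 : ((a ^ 3 - 27 * b).map (algebraMap L M1)).Splits :=
    hsM1.of_dvd h01 ((mapRingHom (algebraMap L M1)).map_dvd (dvd_mul_left _ _))
  obtain ⟨G, hG, hGC⟩ := exists_cubic hB1.three hB1.da hB1.db sb1 hB1.cb hB1.hd0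
  have hdual : (3 * a.map (algebraMap L M1)) ^ 3 -
      27 * ((a.map (algebraMap L M1)) ^ 3 - 27 * b.map (algebraMap L M1)) ≠ 0 := by
    rw [dual_disc]
    exact mul_ne_zero (C_ne_zero.2 (pow_ne_zero 6 hB1.three)) hB1.hb0
  obtain ⟨H, hH, hHC⟩ := exists_cubic hB1.three (a := 3 * a.map (algebraMap L M1))
    (three_a.trans hB1.da) hB1.dd (by rw [map_disc]; exact sd1) hB1.cd hdual
  -- the roots of the cubic polynomials
  obtain ⟨x, hx⟩ := cubic_root (N := L') hB1.three hG
  obtain ⟨M2, h12, hM2, hx2⟩ := small_step hn hM1 (x := x) (G := G) (by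
    rintro rfl
    rw [natDegree_zero] at hG
    omega) hG.le hx
  obtain ⟨y, hy⟩ := cubic_root (N := L') hB1.three hH
  have hy2 : aeval y (H.map (IntermediateField.inclusion h12 : M1 →+* M2)) = 0 := by
    rw [aeval_def, eval₂_map]
    exact hy
  obtain ⟨M, h23, hM, hy3⟩ := small_step hn hM2 (x := y)
    (G := H.map (IntermediateField.inclusion h12 : M1 →+* M2)) (by
    intro h
    rw [Polynomial.map_eq_zero_iff (RingHom.injective _)] at h
    rw [h, natDegree_zero] at hH
    omega) (by rw [natDegree_map]; exact hH.le) hy2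
  let φ : M1 →+* M := (IntermediateField.inclusion (h12.trans h23) : M1 →ₐ[L] M)
  have hφ : φ.comp (algebraMap L M1) = algebraMap L M :=
    (IntermediateField.inclusion (h12.trans h23)).comp_algebraMap
  have hval : ∀ t : M1, ((φ t : M) : L') = (t : L') := fun t => rfl
  have hsM : ((b * (a ^ 3 - 27 * b)).map (algebraMap L M)).Splits := by
    rw [← hφ, ← Polynomial.map_map]
    exact hsM1.map φ
  have hBM := hB.map (algebraMap L M)
  have h0M : (b * (a ^ 3 - 27 * b)).map (algebraMap L M) ≠ 0 :=
    (Polynomial.map_ne_zero_iff (algebraMap L M).injective).2 h0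
  have sb : (b.map (algebraMap L M)).Splits :=
    hsM.of_dvd h0M ((mapRingHom (algebraMap L M)).map_dvd (dvd_mul_right _ _))
  have sd : ((a.map (algebraMap L M)) ^ 3 - 27 * b.map (algebraMap L M)).Splits := by
    rw [map_disc]
    exact hsM.of_dvd h0M ((mapRingHom (algebraMap L M)).map_dvd (dvd_mul_left _ _))
  have hzM : z ∈ M := (h12.trans h23) hz1
  refine ⟨M, hM, hsM, ⟨⟨z, hzM⟩, Subtype.ext hz⟩, ?_⟩
  intro K _ _ _
  have evalφ : ∀ (G : M1[X]) (t : L') (ht : t ∈ M), aeval t G = 0 →
      eval₂ φ (⟨t, ht⟩ : M) G = 0 := by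
    intro G t ht h
    apply (algebraMap M L').injective
    rw [map_zero, hom_eval₂]
    exact h
  have e1 : (a.map (algebraMap L M1)).map φ = a.map (algebraMap L M) := by
    rw [Polynomial.map_map, hφ]
  have e2 : (b.map (algebraMap L M1)).map φ = b.map (algebraMap L M) := by
    rw [Polynomial.map_map, hφ]
  refine ⟨hBM.three, hBM.da, hBM.db, hBM.hb0, hBM.hd0, sb, sd, exists_mult3 hBM.db sb hBM.cb,
    exists_mult3 hBM.dd sd hBM.cd, ?_, ?_⟩
  · have := hGC M K φ ⟨x, h23 hx2⟩ (evalφ G x (h23 hx2) hx)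
    rwa [e1, e2] at this
  · have := hHC M K φ ⟨y, hy3⟩ (evalφ H y hy3 hy)
    have e3 : (3 * a.map (algebraMap L M1)).map φ = 3 * a.map (algebraMap L M) := by
      rw [Polynomial.map_mul, Polynomial.map_ofNat, e1]
    have e4 : ((a.map (algebraMap L M1)) ^ 3 - 27 * b.map (algebraMap L M1)).map φ =
        (a.map (algebraMap L M)) ^ 3 - 27 * b.map (algebraMap L M) := by
      rw [← map_disc, e1, e2]
    rwa [e3, e4] at this

end setup

end Pool.Agent.N181.P8
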