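import Pool.Agent.N181.P8.Over

/-!
Coverings `s = t ^ n + c`.
-/

set_option autoImplicit false
set_option linter.all false

open Polynomial
open scoped Classical

namespace Pool.Agent.N181.P8

open Pool.Agent.X243.Gen (pb pb_sum pb_mul pb_C pb_one pb_pow pb_lin pb_map)

section tower

variable {k : Type} [Field k]

theorem cover_pow {a b : k[X]} (h0 : b * (a ^ 3 - 27 * b) ≠ 0)
    (hs : (b * (a ^ 3 - 27 * b)).Splits) {n : ℕ} (h6 : Nat.Coprime n 6) (hk : (n : k) ≠ 0) {c : k}
    (hc : ∀ ξ, (b * (a ^ 3 - 27 * b)).IsRoot ξ → ξ = c ∨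
      ∀ ℓ : ℕ, ℓ.Prime → ℓ ∣ n → ∀ y : k, y ^ ℓ ≠ ξ - c) :
    Cover (X ^ n + C c) 1 n a b := by
  have hn0 : n ≠ 0 := by
    rintro rfl
    exact hk Nat.cast_zero
  have hodd : Odd n := by
    rw [← Nat.not_even_iff_odd, even_iff_two_dvd]
    intro h
    have h1 : 2 ∣ Nat.gcd n 6 := Nat.dvd_gcd h (by norm_num)
    rw [h6] at h1
    omega
  refine ⟨isCoprime_one_right, ?_, ?_, ?_, h6, ?_, Or.inr (Or.inl rfl)⟩
  · rw [natDegree_X_pow_add_C]; exact Nat.pos_of_ne_zero hn0
  · rw [natDegree_X_pow_add_C]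
  · rw [natDegree_one]; exact Nat.zero_le _
  · intro π hπ hd
    obtain ⟨ξ, hξ⟩ := exists_root_of_degree_eq_one
      ((hs.of_dvd h0 hd).degree_eq_one_of_irreducible hπ)
    obtain ⟨x, hx⟩ := (irreducible_X_sub_C ξ).associated_of_dvd hπ (dvd_iff_isRoot.2 hξ)
    obtain ⟨u, hu, hux⟩ := Polynomial.isUnit_iff.1 x.isUnit
    have e : π = C u * (X - C ξ) := by rw [← hx, ← hux, mul_comm]
    have e1 : π.natDegree = 1 := by rw [e, natDegree_C_mul hu.ne_zero, natDegree_X_sub_C]
    have hroot : (b * (a ^ 3 - 27 * b)).IsRoot ξ := hξ.dvd hd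
    have epb : pb (X ^ n + C c) 1 π = C u * (X ^ n - C (ξ - c)) := by
      rw [e, pb_mul, pb_C, pb_lin, C_sub]
      ring
    refine ⟨?_, ?_⟩
    · refine (separable_X_sub_C (x := ξ)).of_dvd ⟨C u⁻¹, ?_⟩
      rw [e]
      have e3 : (C u : k[X]) * C u⁻¹ = 1 := by rw [← C_mul, mul_inv_cancel₀ hu.ne_zero, C_1]
      linear_combination (-(X - C ξ)) * e3
    by_cases h : ξ = c
    · refine ⟨X, n, 1, u, hu.ne_zero, irreducible_X, separable_X, mul_one n, ?_, ?_⟩
      · rw [natDegree_X, e1]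
      · rw [epb, h, sub_self, C_0, sub_zero]
    · have hne : ξ - c ≠ 0 := sub_ne_zero.2 h
      replace h := (hc ξ hroot).resolve_left h
      refine ⟨X ^ n - C (ξ - c), 1, n, u, hu.ne_zero,
        X_pow_sub_C_irreducible_of_odd hodd fun p hp hpn y => h p hp hpn y,
        separable_X_pow_sub_C _ hk hne, one_mul n, ?_, ?_⟩
      · rw [natDegree_X_pow_sub_C, e1, mul_one]
      · rw [epb, pow_one]

/-- **Existence of towers** over a finite field. -/
theorem exists_tower [Finite k] {g : k[X]} (hg : g ≠ 0) (hdeg : g.natDegree ≤ 6) {ℓ : ℕ}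
    (h7 : 7 ≤ ℓ) (hd : ℓ ∣ Nat.card k - 1) (hq : 36 < Nat.card k) :
    ∃ c : k, ∀ ξ, g.IsRoot ξ → ∀ y : k, y ^ ℓ ≠ ξ - c := by
  letI := Fintype.ofFinite k
  obtain ⟨m, hm⟩ := hd
  have hcard : Nat.card k = Fintype.card k := Nat.card_eq_fintype_card
  have hm0 : 0 < m := by
    rcases Nat.eq_zero_or_pos m with h | h
    · rw [h, mul_zero] at hm
      omega
    · exact h
  -- the powers
  let P : Finset k := Finset.univ.image fun y : k => y ^ ℓ
  have hP : P.card ≤ 1 + m := by
    have h1 : P ⊆ {0} ∪ (X ^ m - C (1 : k)).roots.toFinset := by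
      intro z hz
      obtain ⟨y, -, rfl⟩ := Finset.mem_image.1 hz
      rw [Finset.mem_union, Finset.mem_singleton, Multiset.mem_toFinset,
        mem_roots (X_pow_sub_C_ne_zero hm0 1)]
      by_cases hy : y = 0
      · left
        rw [hy, zero_pow (by omega)]
      · right
        rw [IsRoot.def, eval_sub, eval_pow, eval_X, eval_C, ← pow_mul, ← hm, hcard,
          FiniteField.pow_card_sub_one_eq_one y hy, sub_self]
    refine (Finset.card_le_card h1).trans ((Finset.card_union_le _ _).trans ?_)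
    rw [Finset.card_singleton]
    refine Nat.add_le_add_left ?_ 1
    refine (Multiset.toFinset_card_le _).trans ((card_roots' _).trans ?_)
    rw [natDegree_X_pow_sub_C]
  let B : Finset k := g.roots.toFinset.biUnion fun ξ => P.image fun y => ξ - y
  have hB : B.card < Fintype.card k := by
    have h1 : B.card ≤ g.roots.toFinset.card * (1 + m) := by
      refine Finset.card_biUnion_le_card_mul _ _ _ fun ξ _ => ?_
      exact Finset.card_image_le.trans hP
    have h2 : g.roots.toFinset.card ≤ 6 :=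
      (Multiset.toFinset_card_le _).trans ((card_roots' _).trans hdeg)
    have h3 : B.card ≤ 6 * (1 + m) := h1.trans (Nat.mul_le_mul_right _ h2)
    have h4 : 7 * m ≤ Fintype.card k - 1 := by
      rw [← hcard, hm]
      exact Nat.mul_le_mul_right _ h7
    omega
  obtain ⟨c, hc⟩ : ∃ c : k, c ∉ B := by
    by_contra h
    push Not at h
    have h1 : B = Finset.univ := Finset.eq_univ_iff_forall.2 h
    rw [h1, Finset.card_univ] at hB
    exact lt_irrefl _ hB
  refine ⟨c, fun ξ hξ y hy => hc ?_⟩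
  rw [Finset.mem_biUnion]
  refine ⟨ξ, ?_, Finset.mem_image.2 ⟨y ^ ℓ, Finset.mem_image.2 ⟨y, Finset.mem_univ _, rfl⟩, ?_⟩⟩
  · rw [Multiset.mem_toFinset, mem_roots hg]
    exact hξ
  · rw [hy]
    ring

end tower

end Pool.Agent.N181.P8
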